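import Mathlib.Combinatorics.SimpleGraph.Metric
import Mathlib.Probability.ProductMeasure
import Mathlib.Probability.Distributions.Poisson.Basic

set_option autoImplicit false

namespace Pool.Agent.MP_7f4e92_pr

/-- The vertices at graph distance at most `r` from `v`. -/
def graphBall {V : Type} (G : SimpleGraph V) (v : V) (r : ℕ) : Set V :=
  {w | G.edist v w ≤ r}

/-- The rooted ball of radius `r` around `v` in `G` (with the induced edges) is isomorphic to
the rooted graph `(F, u)`. -/
def BallIso {V W : Type} (G : SimpleGraph V) (v : V) (r : ℕ) (F : SimpleGraph W) (u : W) : Prop :=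
  ∃ e : G.induce (graphBall G v r) ≃g F, ∀ h : v ∈ graphBall G v r, e ⟨v, h⟩ = u

/-- `C` is the vertex set of a connected component of `G` of largest size. -/
def IsLargestComponent {V : Type} (G : SimpleGraph V) (C : Set V) : Prop :=
  ∃ K : G.ConnectedComponent, K.supp = C ∧
    ∀ K' : G.ConnectedComponent, K'.supp.ncard ≤ C.ncard

/-- The proportion of the vertices `v` of `C` whose `r`-ball in the graph induced on `C` is
isomorphic to `(F, u)`. -/
noncomputable def ballFraction {V W : Type} (G : SimpleGraph V) (C : Set V) (r : ℕ)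
    (F : SimpleGraph W) (u : W) : ℝ :=
  ({v : C | BallIso (G.induce C) v r F u}.ncard : ℝ) / (C.ncard : ℝ)

/-- The graph built from offspring numbers `ξ`: the vertices `(k, [])` form a ray, and the vertex
`(k, w)` has the further children `(k, i :: w)` for `i < ξ (k, w)`. The component of `(0, [])`
is the tree with one ray. -/
def rayTree (ξ : ℕ × List ℕ → ℕ) : SimpleGraph (ℕ × List ℕ) :=
  SimpleGraph.fromRel fun a b =>
    (a.2 = [] ∧ b = (a.1 + 1, [])) ∨ ∃ i, i < ξ a ∧ b = (a.1, i :: a.2)

/-- Independent Poisson(1) offspring numbers. -/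
noncomputable def offspringLaw : MeasureTheory.Measure (ℕ × List ℕ → ℕ) :=
  MeasureTheory.Measure.infinitePi fun _ => ProbabilityTheory.poissonMeasure 1

end Pool.Agent.MP_7f4e92_pr
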