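import Mathlib.Tactic.Monotonicity.Lemmas
import Mathlib.Data.Int.Star
import Mathlib.Order.CompletePartialOrder
import Pool.Agent.MP_7f4e92_pr.Defs

-- ======== part 0: formerly Pool.Agent.MP_7f4e92_pr.Ball
section MrgPart0

set_option autoImplicit false

open Set SimpleGraph

namespace Pool.Agent.MP_7f4e92_pr

variable {V V' W : Type}

lemma mem_ball_iff {G : SimpleGraph V} {v w : V} {i : ℕ} :
    w ∈ graphBall G v i ↔ ∃ p : G.Walk v w, p.length ≤ i := by
  constructor
  · intro h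
    have h' : G.edist v w ≤ i := h
    obtain ⟨p, hp⟩ := exists_walk_of_edist_ne_top (ne_top_of_le_ne_top (ENat.natCast_ne_top i) h')
    exact ⟨p, by rw [← hp] at h'; exact_mod_cast h'⟩
  · rintro ⟨p, hp⟩
    exact (edist_le p).trans (by exact_mod_cast hp)

lemma self_mem_ball (G : SimpleGraph V) (v : V) (i : ℕ) : v ∈ graphBall G v i :=
  mem_ball_iff.mpr ⟨Walk.nil, by simp⟩

lemma ball_mono {G : SimpleGraph V} {v : V} {i j : ℕ} (h : i ≤ j) :
    graphBall G v i ⊆ graphBall G v j := fun _ hw => by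
  obtain ⟨p, hp⟩ := mem_ball_iff.mp hw
  exact mem_ball_iff.mpr ⟨p, hp.trans h⟩

lemma ball_mono_graph {G G' : SimpleGraph V} (h : G ≤ G') (v : V) (i : ℕ) :
    graphBall G v i ⊆ graphBall G' v i := fun _ hw => by
  obtain ⟨p, hp⟩ := mem_ball_iff.mp hw
  exact mem_ball_iff.mpr ⟨p.mapLe h, by simpa using hp⟩

lemma mem_ball_zero {G : SimpleGraph V} {v w : V} : w ∈ graphBall G v 0 ↔ w = v := by
  rw [mem_ball_iff]
  constructor
  · rintro ⟨p, hp⟩
    exact (Walk.eq_of_length_eq_zero (Nat.le_zero.mp hp)).symm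
  · rintro rfl
    exact ⟨Walk.nil, by simp⟩

lemma mem_ball_comm {G : SimpleGraph V} {v w : V} {i : ℕ} :
    w ∈ graphBall G v i ↔ v ∈ graphBall G w i := by
  simp [graphBall, edist_comm]

lemma mem_ball_succ' {G : SimpleGraph V} {v w : V} {i : ℕ} :
    w ∈ graphBall G v (i + 1) ↔ w = v ∨ ∃ a, G.Adj v a ∧ w ∈ graphBall G a i := by
  constructor
  · intro h
    obtain ⟨p, hp⟩ := mem_ball_iff.mp h
    cases p with
    | nil => exact Or.inl rfl
    | cons h q => exact Or.inr ⟨_, h, mem_ball_iff.mpr ⟨q, by simpa using hp⟩⟩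
  · rintro (rfl | ⟨a, ha, h⟩)
    · exact self_mem_ball _ _ _
    · obtain ⟨p, hp⟩ := mem_ball_iff.mp h
      exact mem_ball_iff.mpr ⟨Walk.cons ha p, by simpa using hp⟩

lemma mem_ball_succ {G : SimpleGraph V} {v w : V} {i : ℕ} :
    w ∈ graphBall G v (i + 1) ↔ w = v ∨ ∃ a ∈ graphBall G v i, G.Adj a w := by
  rw [mem_ball_comm, mem_ball_succ']
  constructor
  · rintro (h | ⟨a, ha, h⟩)
    · exact Or.inl h.symm
    · exact Or.inr ⟨a, mem_ball_comm.mp h, ha.symm⟩
  · rintro (h | ⟨a, ha, h⟩)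
    · exact Or.inl h.symm
    · exact Or.inr ⟨a, h.symm, mem_ball_comm.mp ha⟩

lemma mem_ball_succ_of_adj {G : SimpleGraph V} {v a w : V} {i : ℕ} (ha : a ∈ graphBall G v i)
    (h : G.Adj a w) : w ∈ graphBall G v (i + 1) :=
  mem_ball_succ.mpr (Or.inr ⟨a, ha, h⟩)

/-- `π` identifies the neighbourhoods of `o` in `G` and of `π o` in `G'` up to radius `r + 1`. -/
structure LocIso (G : SimpleGraph V) (o : V) (G' : SimpleGraph V') (π : V → V') (r : ℕ) : Prop where
  inj : InjOn π (graphBall G o (r + 1))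
  adj : ∀ a ∈ graphBall G o r, ∀ y, G'.Adj (π a) y ↔ ∃ b, G.Adj a b ∧ π b = y

lemma LocIso.ball_eq {G : SimpleGraph V} {o : V} {G' : SimpleGraph V'} {π : V → V'} {r : ℕ}
    (h : LocIso G o G' π r) : ∀ i ≤ r + 1, graphBall G' (π o) i = π '' graphBall G o i := by
  intro i
  induction i with
  | zero =>
    intro _
    ext y
    simp [mem_ball_zero, eq_comm]
  | succ i ih =>
    intro hi
    have ih' := ih (by omega)
    ext y
    rw [mem_ball_succ, ih']
    constructor
    · rintro (rfl | ⟨_, ⟨a, ha, rfl⟩, hy⟩)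
      · exact ⟨o, self_mem_ball _ _ _, rfl⟩
      · obtain ⟨b, hb, rfl⟩ := (h.adj a (ball_mono (by omega) ha) y).mp hy
        exact ⟨b, mem_ball_succ_of_adj ha hb, rfl⟩
    · rintro ⟨b, hb, rfl⟩
      rcases mem_ball_succ.mp hb with rfl | ⟨a, ha, hab⟩
      · exact Or.inl rfl
      · exact Or.inr ⟨π a, ⟨a, ha, rfl⟩,
          (h.adj a (ball_mono (by omega) ha) _).mpr ⟨b, hab, rfl⟩⟩

lemma LocIso.ncard_eq {G : SimpleGraph V} {o : V} {G' : SimpleGraph V'} {π : V → V'} {r : ℕ}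
    (h : LocIso G o G' π r) :
    (graphBall G' (π o) (r + 1)).ncard = (graphBall G o (r + 1)).ncard := by
  rw [h.ball_eq _ le_rfl, h.inj.ncard_image]

lemma LocIso.exists_iso {G : SimpleGraph V} {o : V} {G' : SimpleGraph V'} {π : V → V'} {r : ℕ}
    (h : LocIso G o G' π r) :
    ∃ e : G.induce (graphBall G o r) ≃g G'.induce (graphBall G' (π o) r),
      ∀ a, (e a : V') = π a := by
  have hb : BijOn π (graphBall G o r) (graphBall G' (π o) r) := by
    rw [h.ball_eq r (by omega)]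
    exact (h.inj.mono (ball_mono (by omega))).bijOn_image
  refine ⟨⟨hb.equiv π, ?_⟩, fun a => rfl⟩
  intro a b
  change G'.Adj (π a) (π b) ↔ G.Adj a b
  rw [h.adj a a.2]
  constructor
  · rintro ⟨c, hc, hcb⟩
    have := h.inj (mem_ball_succ_of_adj a.2 hc) (ball_mono (by omega) b.2) hcb
    rwa [← this]
  · intro hab
    exact ⟨b, hab, rfl⟩

lemma LocIso.ballIso_iff {G : SimpleGraph V} {o : V} {G' : SimpleGraph V'} {π : V → V'} {r : ℕ}
    (h : LocIso G o G' π r) (F : SimpleGraph W) (u : W) :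
    BallIso G' (π o) r F u ↔ BallIso G o r F u := by
  obtain ⟨e, he⟩ := h.exists_iso
  have h0 : ∀ h1 h2, e ⟨o, h1⟩ = ⟨π o, h2⟩ := fun h1 h2 => Subtype.ext (he _)
  constructor
  · rintro ⟨e', he'⟩
    refine ⟨e.trans e', fun h1 => ?_⟩
    change e' (e ⟨o, h1⟩) = u
    rw [h0 h1 (self_mem_ball _ _ _)]
    exact he' _
  · rintro ⟨e', he'⟩
    refine ⟨e.symm.trans e', fun h2 => ?_⟩
    change e' (e.symm ⟨π o, h2⟩) = u
    rw [← h0 (self_mem_ball _ _ _) h2, RelIso.symm_apply_apply]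
    exact he' _

/-- The local statistic: the ball is (or is not) of type `(F, u)` and the next ball is small. -/
def Phi (s : Prop) (r D : ℕ) (F : SimpleGraph W) (u : W) (G : SimpleGraph V) (v : V) : Prop :=
  (BallIso G v r F u ↔ s) ∧ (graphBall G v (r + 1)).ncard ≤ D

lemma LocIso.phi_iff {G : SimpleGraph V} {o : V} {G' : SimpleGraph V'} {π : V → V'} {r : ℕ}
    (h : LocIso G o G' π r) (s : Prop) (D : ℕ) (F : SimpleGraph W) (u : W) :
    Phi s r D F u G' (π o) ↔ Phi s r D F u G o := by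
  unfold Phi
  rw [h.ballIso_iff, h.ncard_eq]

/-- The set reached from `x` through vertices of small degree. -/
def lightBall (G : SimpleGraph V) (D : ℕ) (x : V) : ℕ → Set V
  | 0 => {x}
  | i + 1 => lightBall G D x i ∪
      ⋃ w ∈ {w ∈ lightBall G D x i | (G.neighborSet w).ncard ≤ D}, G.neighborSet w

lemma ncard_biUnion_le' [Finite V] (s : Set V) (t : V → Set V) (D : ℕ)
    (h : ∀ w ∈ s, (t w).ncard ≤ D) : (⋃ w ∈ s, t w).ncard ≤ s.ncard * D := by
  induction s, s.toFinite using Set.Finite.induction_on with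
  | empty => simp
  | @insert a s ha hs ih =>
    rw [biUnion_insert, ncard_insert_of_notMem ha hs]
    refine (ncard_union_le _ _).trans ?_
    have h1 := h a (mem_insert _ _)
    have h2 := ih fun w hw => h w (mem_insert_of_mem _ hw)
    nlinarith

lemma ncard_lightBall [Finite V] (G : SimpleGraph V) (D : ℕ) (x : V) (i : ℕ) :
    (lightBall G D x i).ncard ≤ (D + 1) ^ i := by
  induction i with
  | zero => simp [lightBall]
  | succ i ih =>
    simp only [lightBall]
    refine (ncard_union_le _ _).trans ?_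
    have h1 := ncard_biUnion_le' {w ∈ lightBall G D x i | (G.neighborSet w).ncard ≤ D}
      G.neighborSet D (fun w hw => hw.2)
    have h2 : {w ∈ lightBall G D x i | (G.neighborSet w).ncard ≤ D}.ncard ≤
        (lightBall G D x i).ncard := ncard_le_ncard (fun w hw => hw.1)
    have h3 : {w ∈ lightBall G D x i | (G.neighborSet w).ncard ≤ D}.ncard * D ≤
        (D + 1) ^ i * D := Nat.mul_le_mul_right _ (h2.trans ih)
    rw [pow_succ]
    nlinarith

lemma self_mem_lightBall (G : SimpleGraph V) (D : ℕ) (x : V) (i : ℕ) : x ∈ lightBall G D x i := by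
  induction i with
  | zero => simp [lightBall]
  | succ i ih => exact Or.inl ih

lemma mem_lightBall (G : SimpleGraph V) (D : ℕ) (x : V) (i : ℕ) :
    ∀ v, x ∈ graphBall G v i → (∀ w ∈ graphBall G v i, (G.neighborSet w).ncard ≤ D) →
      v ∈ lightBall G D x i := by
  induction i with
  | zero =>
    intro v h _
    simp [lightBall, (mem_ball_zero.mp h).symm]
  | succ i ih =>
    intro v h hl
    rcases mem_ball_succ'.mp h with rfl | ⟨a, ha, h'⟩
    · exact self_mem_lightBall _ _ _ _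
    · have h1 : ∀ w ∈ graphBall G a i, (G.neighborSet w).ncard ≤ D := fun w hw =>
        hl w (mem_ball_succ'.mpr (Or.inr ⟨a, ha, hw⟩))
      refine Or.inr ?_
      simp only [mem_iUnion]
      exact ⟨a, ⟨ih a h' h1, h1 a (self_mem_ball _ _ _)⟩, ha.symm⟩

lemma ncard_near_le [Finite V] (G : SimpleGraph V) (D r : ℕ) (x : V) :
    {v | x ∈ graphBall G v r ∧ (graphBall G v (r + 1)).ncard ≤ D}.ncard ≤ (D + 1) ^ r := by
  refine le_trans (ncard_le_ncard ?_) (ncard_lightBall G D x r)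
  rintro v ⟨h1, h2⟩
  apply mem_lightBall G D x r v h1
  intro w hw
  exact le_trans (ncard_le_ncard fun y hy => mem_ball_succ_of_adj hw hy) h2

/-- The number of vertices with the local statistic. -/
noncomputable def cnt (s : Prop) (r D : ℕ) (F : SimpleGraph W) (u : W) (G : SimpleGraph V) : ℕ :=
  {v | Phi s r D F u G v}.ncard

lemma cnt_lip [Finite V] (s : Prop) (r D : ℕ) (F : SimpleGraph W) (u : W) {H H' : SimpleGraph V}
    (hle : H ≤ H') (Z : Set V) (hZ : ∀ a b, H'.Adj a b → ¬ H.Adj a b → a ∈ Z) :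
    cnt s r D F u H ≤ cnt s r D F u H' + Z.ncard * (D + 1) ^ r ∧
    cnt s r D F u H' ≤ cnt s r D F u H + Z.ncard * (D + 1) ^ r := by
  set X := ⋃ x ∈ Z, {v | x ∈ graphBall H v r ∧ (graphBall H v (r + 1)).ncard ≤ D} with hX
  have hXc : X.ncard ≤ Z.ncard * (D + 1) ^ r :=
    ncard_biUnion_le' Z _ _ fun x _ => ncard_near_le H D r x
  have key : ∀ v, (graphBall H v (r + 1)).ncard ≤ D → v ∉ X →
      (Phi s r D F u H' v ↔ Phi s r D F u H v) := by
    intro v hv hvX
    have : LocIso H v H' id r := by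
      refine ⟨injOn_id _, fun a ha y => ?_⟩
      constructor
      · intro h
        refine ⟨y, ?_, rfl⟩
        by_contra h'
        apply hvX
        simp only [hX, mem_iUnion]
        exact ⟨a, hZ a y h h', ha, hv⟩
      · rintro ⟨b, hb, rfl⟩
        exact hle hb
    exact this.phi_iff s D F u
  constructor
  · refine le_trans (ncard_le_ncard (t := {v | Phi s r D F u H' v} ∪ X) ?_)
      ((ncard_union_le _ _).trans (Nat.add_le_add_left hXc _))
    intro v hv
    by_cases h : v ∈ X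
    · exact Or.inr h
    · exact Or.inl ((key v hv.2 h).mpr hv)
  · refine le_trans (ncard_le_ncard (t := {v | Phi s r D F u H v} ∪ X) ?_)
      ((ncard_union_le _ _).trans (Nat.add_le_add_left hXc _))
    intro v hv
    by_cases h : v ∈ X
    · exact Or.inr h
    · exact Or.inl ((key v ((ncard_le_ncard (ball_mono_graph hle v _)).trans hv.2) h).mp hv)

/-- The graph of a mapping. -/
def mapGraph (f : V → V) : SimpleGraph V := SimpleGraph.fromRel fun a b => f a = b

lemma mapGraph_adj (f : V → V) (a b : V) :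
    (mapGraph f).Adj a b ↔ a ≠ b ∧ (f a = b ∨ f b = a) := by
  simp [mapGraph, fromRel_adj]

lemma cnt_mapGraph_lip [Finite V] (s : Prop) (r D : ℕ) (F : SimpleGraph W) (u : W) (f g : V → V)
    (i : V) (h : ∀ j, j ≠ i → f j = g j) :
    cnt s r D F u (mapGraph f) ≤ cnt s r D F u (mapGraph g) + 4 * (D + 1) ^ r := by
  have aux : ∀ f g : V → V, (∀ j, j ≠ i → f j = g j) →
      ∀ a b, (mapGraph f).Adj a b → ¬ (mapGraph f ⊓ mapGraph g).Adj a b →
        a ∈ ({i, f i} : Set V) := by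
    intro f g h a b hab hn
    by_contra ha
    simp only [mem_insert_iff, mem_singleton_iff, not_or] at ha
    apply hn
    refine ⟨hab, ?_⟩
    rw [mapGraph_adj] at hab ⊢
    refine ⟨hab.1, ?_⟩
    rcases hab.2 with h1 | h1
    · exact Or.inl ((h a ha.1) ▸ h1)
    · by_cases hb : b = i
      · exact absurd (hb ▸ h1).symm ha.2
      · exact Or.inr ((h b hb) ▸ h1)
  have h1 := (cnt_lip s r D F u (inf_le_left (a := mapGraph f) (b := mapGraph g)) {i, f i}
    (aux f g h)).2
  have h2 := (cnt_lip s r D F u (inf_le_left (a := mapGraph g) (b := mapGraph f)) {i, g i}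
    (aux g f fun j hj => (h j hj).symm)).1
  rw [inf_comm] at h2
  have h3 : ∀ a b : V, ({a, b} : Set V).ncard ≤ 2 := fun a b =>
    (ncard_insert_le _ _).trans (by simp)
  have h4 := Nat.mul_le_mul_right ((D + 1) ^ r) (h3 i (f i))
  have h5 := Nat.mul_le_mul_right ((D + 1) ^ r) (h3 i (g i))
  omega

end Pool.Agent.MP_7f4e92_pr

end MrgPart0

-- ======== part 1: formerly Pool.Agent.MP_7f4e92_pr.Shape
section MrgPart1

set_option autoImplicit false

open Set SimpleGraph

namespace Pool.Agent.MP_7f4e92_pr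

abbrev Nd : Type := ℕ × List ℕ

def par : Nd → Nd
  | (j, []) => (j + 1, [])
  | (j, _ :: w) => (j, w)

def ok (ξ : Nd → ℕ) : Nd → Prop
  | (_, []) => True
  | (j, c :: w) => c < ξ (j, w)

def alive (ξ : Nd → ℕ) (j : ℕ) : List ℕ → Prop
  | [] => True
  | c :: w => c < ξ (j, w) ∧ alive ξ j w

def depth (a : Nd) : ℕ := a.1 + a.2.length

lemma par_ne (a : Nd) : par a ≠ a := by
  obtain ⟨j, _ | ⟨c, w⟩⟩ := a <;> simp [par]

lemma rayTree_adj (ξ : Nd → ℕ) (a b : Nd) :
    (rayTree ξ).Adj a b ↔ (ok ξ a ∧ par a = b) ∨ (ok ξ b ∧ par b = a) := by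
  have key : ∀ a b : Nd, ((a.2 = [] ∧ b = (a.1 + 1, [])) ∨ ∃ i, i < ξ a ∧ b = (a.1, i :: a.2)) →
      (ok ξ a ∧ par a = b) ∨ (ok ξ b ∧ par b = a) := by
    rintro ⟨j, w⟩ b (⟨h1, rfl⟩ | ⟨i, hi, rfl⟩)
    · simp only at h1
      subst h1
      exact Or.inl ⟨trivial, rfl⟩
    · exact Or.inr ⟨hi, rfl⟩
  have key2 : ∀ a b : Nd, ok ξ a → par a = b →
      ((a.2 = [] ∧ b = (a.1 + 1, [])) ∨ ∃ i, i < ξ a ∧ b = (a.1, i :: a.2)) ∨
      ((b.2 = [] ∧ a = (b.1 + 1, [])) ∨ ∃ i, i < ξ b ∧ a = (b.1, i :: b.2)) := by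
    rintro ⟨j, _ | ⟨c, w⟩⟩ b h rfl
    · exact Or.inl (Or.inl ⟨rfl, rfl⟩)
    · exact Or.inr (Or.inr ⟨c, h, rfl⟩)
  rw [rayTree, fromRel_adj]
  constructor
  · rintro ⟨_, h | h⟩
    · exact key a b h
    · exact (key b a h).symm
  · rintro (⟨h1, h2⟩ | ⟨h1, h2⟩)
    · exact ⟨fun h => par_ne a (h2.trans h.symm), key2 a b h1 h2⟩
    · exact ⟨fun h => par_ne b (h2.trans h), (key2 b a h1 h2).symm⟩

/-- The ball of the ray tree around its root. -/
abbrev TB (ξ : Nd → ℕ) (i : ℕ) : Set Nd := graphBall (rayTree ξ) (0, []) i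

lemma mem_TB (ξ : Nd → ℕ) (i : ℕ) : ∀ a : Nd, a ∈ TB ξ i ↔ alive ξ a.1 a.2 ∧ depth a ≤ i := by
  induction i with
  | zero =>
    rintro ⟨j, w⟩
    rw [mem_ball_zero]
    constructor
    · intro h
      obtain ⟨rfl, rfl⟩ := Prod.mk.inj h
      exact ⟨trivial, le_rfl⟩
    · rintro ⟨_, h⟩
      simp only [depth, nonpos_iff_eq_zero, Nat.add_eq_zero_iff, List.length_eq_zero_iff] at h
      rw [h.1, h.2]
  | succ i ih =>
    intro b
    rw [mem_ball_succ]
    constructor
    · rintro (rfl | ⟨a, ha, hab⟩)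
      · exact ⟨trivial, Nat.zero_le _⟩
      · rw [ih] at ha
        rcases (rayTree_adj ξ a b).mp hab with ⟨_, rfl⟩ | ⟨h1, rfl⟩
        · obtain ⟨j, _ | ⟨c, w⟩⟩ := a
          · refine ⟨trivial, ?_⟩
            have := ha.2
            simp only [depth, par, List.length_nil] at this ⊢
            omega
          · refine ⟨ha.1.2, ?_⟩
            have := ha.2
            simp only [depth, par, List.length_cons] at this ⊢
            omega
        · obtain ⟨j, _ | ⟨c, w⟩⟩ := b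
          · refine ⟨trivial, ?_⟩
            have := ha.2
            simp only [depth, par, List.length_nil] at this ⊢
            omega
          · refine ⟨⟨h1, ha.1⟩, ?_⟩
            have := ha.2
            simp only [depth, par, List.length_cons] at this ⊢
            omega
    · obtain ⟨j, _ | ⟨c, w⟩⟩ := b
      · rintro ⟨_, h⟩
        cases j with
        | zero => exact Or.inl rfl
        | succ j =>
          refine Or.inr ⟨(j, []), (ih _).mpr ⟨trivial, ?_⟩,
            (rayTree_adj ξ _ _).mpr (Or.inl ⟨trivial, rfl⟩)⟩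
          simp only [depth, List.length_nil] at h ⊢
          omega
      · rintro ⟨h1, h⟩
        refine Or.inr ⟨(j, w), (ih _).mpr ⟨h1.2, ?_⟩,
          (rayTree_adj ξ _ _).mpr (Or.inr ⟨h1.1, rfl⟩)⟩
        simp only [depth, List.length_cons] at h ⊢
        omega

lemma finite_TB (ξ : Nd → ℕ) (i : ℕ) : (TB ξ i).Finite := by
  induction i with
  | zero =>
    apply (finite_singleton ((0, []) : Nd)).subset
    intro a ha
    exact mem_ball_zero.mp ha
  | succ i ih =>
    have h1 : (insert ((i + 1, []) : Nd) (TB ξ i ∪ ⋃ a ∈ TB ξ i,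
        (fun c => ((a.1, c :: a.2) : Nd)) '' Iio (ξ a))).Finite :=
      (ih.union (ih.biUnion fun a _ => (finite_Iio _).image _)).insert _
    apply h1.subset
    rintro ⟨j, _ | ⟨c, w⟩⟩ ha
    · rw [mem_TB] at ha
      have h2 := ha.2
      simp only [depth, List.length_nil] at h2
      rcases Nat.lt_or_ge i j with h | h
      · obtain rfl : j = i + 1 := by omega
        exact Or.inl rfl
      · exact Or.inr (Or.inl ((mem_TB ξ i _).mpr ⟨trivial, by simpa [depth] using h⟩))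
    · rw [mem_TB] at ha
      have h2 := ha.2
      simp only [depth, List.length_cons] at h2
      refine Or.inr (Or.inr ?_)
      simp only [mem_iUnion]
      exact ⟨(j, w), (mem_TB ξ i _).mpr ⟨ha.1.2, by simp only [depth]; omega⟩, c, ha.1.1, rfl⟩

lemma ok_of_mem {ξ : Nd → ℕ} {i : ℕ} {a : Nd} (h : a ∈ TB ξ i) : ok ξ a := by
  rw [mem_TB] at h
  obtain ⟨j, _ | ⟨c, w⟩⟩ := a
  · trivial
  · exact h.1.1

lemma par_mem {ξ : Nd → ℕ} {i : ℕ} {a : Nd} (h : a ∈ TB ξ i) (hne : a ≠ (i, [])) :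
    par a ∈ TB ξ i := by
  rw [mem_TB] at h ⊢
  obtain ⟨j, _ | ⟨c, w⟩⟩ := a
  · refine ⟨trivial, ?_⟩
    have h2 := h.2
    have h3 : j ≠ i := fun h => hne (by rw [h])
    simp only [depth, par, List.length_nil] at h2 ⊢
    omega
  · refine ⟨h.1.2, ?_⟩
    have h2 := h.2
    simp only [depth, par, List.length_cons] at h2 ⊢
    omega

lemma spine_mem (ξ : Nd → ℕ) {i j : ℕ} (h : j ≤ i) : ((j, []) : Nd) ∈ TB ξ i :=
  (mem_TB ξ i _).mpr ⟨trivial, by simpa [depth] using h⟩

lemma child_mem {ξ : Nd → ℕ} {i : ℕ} {a : Nd} (h : a ∈ TB ξ i) {c : ℕ} (hc : c < ξ a) :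
    ((a.1, c :: a.2) : Nd) ∈ TB ξ (i + 1) := by
  rw [mem_TB] at h ⊢
  refine ⟨⟨hc, h.1⟩, ?_⟩
  have h2 := h.2
  simp only [depth, List.length_cons] at h2 ⊢
  omega

lemma parent_mem {ξ : Nd → ℕ} {i j c : ℕ} {w : List ℕ} (h : ((j, c :: w) : Nd) ∈ TB ξ (i + 1)) :
    ((j, w) : Nd) ∈ TB ξ i ∧ c < ξ (j, w) := by
  rw [mem_TB] at h ⊢
  refine ⟨⟨h.1.2, ?_⟩, h.1.1⟩
  have h2 := h.2
  simp only [depth, List.length_cons] at h2 ⊢
  omega

variable {X : Type} [LinearOrder X]

/-- `π` is the canonical embedding of the ball of the ray tree in the mapping `f`. -/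
structure Valid (ξ : Nd → ℕ) (r : ℕ) (f : X → X) (π : Nd → X) : Prop where
  inj : InjOn π (TB ξ (r + 1))
  edge : ∀ a ∈ TB ξ (r + 1), a ≠ (r + 1, []) → f (π a) = π (par a)
  closed : ∀ x, ∀ b ∈ TB ξ r, f x = π b → ∃ a ∈ TB ξ (r + 1), a ≠ (r + 1, []) ∧ π a = x
  mono : ∀ a ∈ TB ξ r, ∀ c c', c < c' → c' < ξ a → π (a.1, c :: a.2) < π (a.1, c' :: a.2)

lemma ne_top_of_mem {ξ : Nd → ℕ} {r : ℕ} {a : Nd} (h : a ∈ TB ξ r) : a ≠ (r + 1, []) := by
  rintro rfl
  have := ((mem_TB ξ r _).mp h).2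
  simp [depth] at this

lemma Valid.locIso {ξ : Nd → ℕ} {r : ℕ} {f : X → X} {π : Nd → X} (h : Valid ξ r f π) :
    LocIso (rayTree ξ) (0, []) (mapGraph f) π r := by
  refine ⟨h.inj, fun a ha y => ?_⟩
  have ha' : a ∈ TB ξ (r + 1) := ball_mono (Nat.le_succ r) ha
  rw [mapGraph_adj]
  constructor
  · rintro ⟨_, h1 | h1⟩
    · refine ⟨par a, (rayTree_adj ξ _ _).mpr (Or.inl ⟨ok_of_mem ha, rfl⟩), ?_⟩
      rw [← h1, h.edge a ha' (ne_top_of_mem ha)]
    · obtain ⟨b, hb, hb', rfl⟩ := h.closed y a ha h1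
      rw [h.edge b hb hb'] at h1
      have := h.inj (par_mem hb hb') ha' h1
      exact ⟨b, (rayTree_adj ξ _ _).mpr (Or.inr ⟨ok_of_mem hb, this⟩), rfl⟩
  · rintro ⟨b, hab, rfl⟩
    have hb : b ∈ TB ξ (r + 1) := mem_ball_succ_of_adj ha hab
    refine ⟨fun h1 => hab.ne (h.inj ha' hb h1), ?_⟩
    rcases (rayTree_adj ξ _ _).mp hab with ⟨_, rfl⟩ | ⟨_, rfl⟩
    · exact Or.inl (h.edge a ha' (ne_top_of_mem ha))
    · refine Or.inr (h.edge b hb ?_)
      rintro rfl
      have := ((mem_TB ξ r _).mp ha).2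
      simp only [depth, par] at this
      omega

lemma Valid.spine_eq {ξ ξ' : Nd → ℕ} {r : ℕ} {f : X → X} {π π' : Nd → X} (h : Valid ξ r f π)
    (h' : Valid ξ' r f π') (h0 : π (0, []) = π' (0, [])) :
    ∀ j ≤ r + 1, π (j, []) = π' (j, []) := by
  intro j
  induction j with
  | zero => intro _; exact h0
  | succ j ih =>
    intro hj
    have h1 := h.edge (j, []) (spine_mem ξ (by omega)) (ne_top_of_mem (spine_mem ξ (by omega)))
    have h2 := h'.edge (j, []) (spine_mem ξ' (by omega)) (ne_top_of_mem (spine_mem ξ' (by omega)))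
    rw [ih (by omega), h2] at h1
    exact h1.symm

lemma Valid.child_sub {ξ ξ' : Nd → ℕ} {r : ℕ} {f : X → X} {π π' : Nd → X} (h : Valid ξ r f π)
    (h' : Valid ξ' r f π') (h0 : π (0, []) = π' (0, [])) {a : Nd} (ha : a ∈ TB ξ r)
    (ha' : a ∈ TB ξ' r) (he : π a = π' a) {c : ℕ} (hc : c < ξ a) :
    ∃ c' < ξ' a, π' (a.1, c' :: a.2) = π (a.1, c :: a.2) := by
  have h1 := h.edge _ (child_mem ha hc) (by simp)
  change f (π (a.1, c :: a.2)) = π a at h1
  rw [he] at h1
  obtain ⟨b, hb, hb', hbx⟩ := h'.closed _ a ha' h1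
  rw [← hbx, h'.edge b hb hb'] at h1
  have h2 := h'.inj (par_mem hb hb') (ball_mono (Nat.le_succ r) ha') h1
  obtain ⟨j, _ | ⟨c', w⟩⟩ := b
  · exfalso
    have h3 : j ≤ r + 1 := by simpa [depth] using ((mem_TB ξ' _ _).mp hb).2
    rw [← h.spine_eq h' h0 j h3] at hbx
    have := h.inj (spine_mem ξ h3) (child_mem ha hc) hbx
    simp at this
  · change (j, w) = a at h2
    subst h2
    exact ⟨c', (parent_mem hb).2, hbx⟩

lemma Valid.child_eq {ξ ξ' : Nd → ℕ} {r : ℕ} {f : X → X} {π π' : Nd → X} (h : Valid ξ r f π)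
    (h' : Valid ξ' r f π') (h0 : π (0, []) = π' (0, [])) {a : Nd} (ha : a ∈ TB ξ r)
    (ha' : a ∈ TB ξ' r) (he : π a = π' a) :
    ξ a = ξ' a ∧ ∀ c < ξ a, π (a.1, c :: a.2) = π' (a.1, c :: a.2) := by
  have hs : ∀ {ξ : Nd → ℕ} {π : Nd → X}, Valid ξ r f π → a ∈ TB ξ r →
      List.Pairwise (· < ·) ((List.range (ξ a)).map fun c => π (a.1, c :: a.2)) := by
    intro ξ π h ha
    rw [List.pairwise_map]
    refine List.Pairwise.imp_of_mem ?_ List.pairwise_lt_range
    intro c c' _ hc' hcc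
    exact h.mono a ha c c' hcc (List.mem_range.mp hc')
  have e := (hs h ha).eq_of_mem_iff (hs h' ha') (by
    intro x
    simp only [List.mem_map, List.mem_range]
    constructor
    · rintro ⟨c, hc, rfl⟩
      exact h.child_sub h' h0 ha ha' he hc
    · rintro ⟨c, hc, rfl⟩
      exact h'.child_sub h h0.symm ha' ha he.symm hc)
  have e1 : ξ a = ξ' a := by simpa using congrArg List.length e
  refine ⟨e1, fun c hc => ?_⟩
  rw [← e1, List.map_inj_left] at e
  exact e c (List.mem_range.mpr hc)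

lemma Valid.unique_aux {ξ ξ' : Nd → ℕ} {r : ℕ} {f : X → X} {π π' : Nd → X} (h : Valid ξ r f π)
    (h' : Valid ξ' r f π') (h0 : π (0, []) = π' (0, [])) (j : ℕ) :
    ∀ (w : List ℕ) (i : ℕ), i ≤ r + 1 → ((j, w) : Nd) ∈ TB ξ i →
      ((j, w) : Nd) ∈ TB ξ' i ∧ π (j, w) = π' (j, w) := by
  intro w
  induction w with
  | nil =>
    intro i hi hm
    have h3 : j ≤ i := by simpa [depth] using ((mem_TB ξ _ _).mp hm).2
    exact ⟨spine_mem ξ' h3, h.spine_eq h' h0 j (h3.trans hi)⟩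
  | cons c w ih =>
    intro i hi hm
    cases i with
    | zero => simpa [depth] using ((mem_TB ξ _ _).mp hm).2
    | succ i =>
      obtain ⟨h1, h2⟩ := parent_mem hm
      obtain ⟨h3, h4⟩ := ih i (by omega) h1
      obtain ⟨h5, h6⟩ := h.child_eq h' h0 (ball_mono (by omega) h1) (ball_mono (by omega) h3) h4
      exact ⟨child_mem h3 (h5 ▸ h2), h6 c h2⟩

lemma Valid.unique {ξ ξ' : Nd → ℕ} {r : ℕ} {f : X → X} {π π' : Nd → X} (h : Valid ξ r f π)
    (h' : Valid ξ' r f π') (h0 : π (0, []) = π' (0, [])) :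
    TB ξ r = TB ξ' r ∧ (∀ a ∈ TB ξ r, ξ a = ξ' a) ∧ ∀ a ∈ TB ξ (r + 1), π a = π' a := by
  refine ⟨?_, ?_, ?_⟩
  · ext ⟨j, w⟩
    exact ⟨fun hm => (h.unique_aux h' h0 j w r (by omega) hm).1,
      fun hm => (h'.unique_aux h h0.symm j w r (by omega) hm).1⟩
  · rintro ⟨j, w⟩ hm
    obtain ⟨h1, h2⟩ := h.unique_aux h' h0 j w r (by omega) hm
    exact (h.child_eq h' h0 hm h1 h2).1
  · rintro ⟨j, w⟩ hm
    exact (h.unique_aux h' h0 j w (r + 1) le_rfl hm).2

end Pool.Agent.MP_7f4e92_pr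

end MrgPart1

-- ======== part 2: formerly Pool.Agent.MP_7f4e92_pr.Couple
section MrgPart2

set_option autoImplicit false

open Set SimpleGraph Filter MeasureTheory ProbabilityTheory
open scoped Topology ENNReal Classical

namespace Pool.Agent.MP_7f4e92_pr

/-- The ball of the ray tree as a finite set. -/
noncomputable def UF (ξ : Nd → ℕ) (i : ℕ) : Finset Nd := (finite_TB ξ i).toFinset

lemma mem_UF {ξ : Nd → ℕ} {i : ℕ} {a : Nd} : a ∈ UF ξ i ↔ a ∈ TB ξ i := Finite.mem_toFinset _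

/-- An index type for the vertices of the ball of radius `r + 1`. -/
abbrev NN (ξ : Nd → ℕ) (r : ℕ) : Type := Fin (r + 2) ⊕ (Σ a : UF ξ r, Fin (ξ a))

def nd (ξ : Nd → ℕ) (r : ℕ) : NN ξ r → Nd
  | Sum.inl j => (j, [])
  | Sum.inr ⟨a, c⟩ => (a.1.1, (c : ℕ) :: a.1.2)

lemma nd_injective (ξ : Nd → ℕ) (r : ℕ) : Function.Injective (nd ξ r) := by
  rintro (j | ⟨⟨⟨j, w⟩, ha⟩, c⟩) (j' | ⟨⟨⟨j', w'⟩, ha'⟩, c'⟩) h
  · simp only [nd, Prod.mk.injEq, and_true] at h
    rw [Fin.ext h]
  · simp [nd] at h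
  · simp [nd] at h
  · simp only [nd, Prod.mk.injEq, List.cons.injEq] at h
    obtain ⟨rfl, h1, rfl⟩ := h
    rw [Fin.ext h1]

lemma range_nd (ξ : Nd → ℕ) (r : ℕ) : range (nd ξ r) = TB ξ (r + 1) := by
  ext a
  constructor
  · rintro ⟨j | ⟨a, c⟩, rfl⟩
    · exact spine_mem ξ (by have := j.2; omega)
    · exact child_mem (mem_UF.mp a.2) c.2
  · obtain ⟨j, _ | ⟨c, w⟩⟩ := a
    · intro h
      have h3 : j ≤ r + 1 := by simpa [depth] using ((mem_TB ξ _ _).mp h).2
      exact ⟨Sum.inl ⟨j, by omega⟩, rfl⟩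
    · intro h
      obtain ⟨h1, h2⟩ := parent_mem h
      exact ⟨Sum.inr ⟨⟨(j, w), mem_UF.mpr h1⟩, ⟨c, h2⟩⟩, rfl⟩

lemma card_NN (ξ : Nd → ℕ) (r : ℕ) : Fintype.card (NN ξ r) = (UF ξ (r + 1)).card := by
  rw [← Finset.card_univ, ← Finset.card_image_of_injective _ (nd_injective ξ r)]
  congr 1
  ext a
  rw [mem_UF, ← range_nd]
  simp

/-- Embeddings that are increasing on siblings. -/
noncomputable def IncF (ξ : Nd → ℕ) (r k : ℕ) : Finset (NN ξ r ↪ Fin k) :=
  Finset.univ.filter fun e => ∀ a : UF ξ r, StrictMono fun c : Fin (ξ a) => e (Sum.inr ⟨a, c⟩)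

lemma descFactorial_le_card_IncF (ξ : Nd → ℕ) (r k : ℕ) :
    k.descFactorial (UF ξ (r + 1)).card ≤
      (IncF ξ r k).card * ∏ a ∈ UF ξ r, (ξ a).factorial := by
  set S : (∀ a : UF ξ r, Equiv.Perm (Fin (ξ a))) → (NN ξ r ≃ NN ξ r) := fun σ =>
    Equiv.sumCongr (Equiv.refl _) (Equiv.sigmaCongrRight σ) with hS
  set srt : (NN ξ r ↪ Fin k) → ∀ a : UF ξ r, Equiv.Perm (Fin (ξ a)) := fun e a =>
    Tuple.sort fun c => e (Sum.inr ⟨a, c⟩) with hsrt
  have h1 : (Finset.univ : Finset (NN ξ r ↪ Fin k)).card ≤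
      ((IncF ξ r k) ×ˢ (Finset.univ : Finset (∀ a : UF ξ r, Equiv.Perm (Fin (ξ a))))).card := by
    apply Finset.card_le_card_of_injOn (fun e => ((S (srt e)).toEmbedding.trans e, srt e))
    · intro e _
      simp only [Finset.coe_product, Finset.coe_univ, mem_prod, mem_univ, and_true, IncF,
        Finset.coe_filter, Finset.mem_univ, true_and]
      intro a
      apply Monotone.strictMono_of_injective
      · exact Tuple.monotone_sort fun c => e (Sum.inr ⟨a, c⟩)
      · intro c c' h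
        have := ((S (srt e)).toEmbedding.trans e).injective h
        simpa using this
    · intro e _ e' _ h
      obtain ⟨h1, h2⟩ := Prod.mk.inj h
      rw [h2] at h1
      ext n
      obtain ⟨n, rfl⟩ := (S (srt e')).surjective n
      exact congrArg Fin.val (DFunLike.congr_fun h1 n)
  rw [Finset.card_univ, Fintype.card_embedding_eq, Fintype.card_fin, card_NN, Finset.card_product,
    Finset.card_univ, Fintype.card_pi] at h1
  simp only [Fintype.card_perm, Fintype.card_fin] at h1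
  rwa [Finset.prod_coe_sort (UF ξ r) fun a => (ξ a).factorial] at h1

lemma card_valid_ge (ξ : Nd → ℕ) (r k : ℕ) (π : Nd → Fin k) (hinj : InjOn π (TB ξ (r + 1)))
    (hmono : ∀ a ∈ TB ξ r, ∀ c c', c < c' → c' < ξ a → π (a.1, c :: a.2) < π (a.1, c' :: a.2)) :
    (k - (UF ξ r).card) ^ (k + 1 - (UF ξ (r + 1)).card) ≤
      (Finset.univ.filter fun f : Fin k → Fin k => Valid ξ r f π).card := by
  set V0 := (UF ξ (r + 1)).erase (r + 1, []) with hV0
  have hV0' : ∀ a, a ∈ V0 ↔ a ∈ TB ξ (r + 1) ∧ a ≠ (r + 1, []) := by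
    intro a
    rw [hV0, Finset.mem_erase, mem_UF, and_comm]
  set A := V0.image π with hA
  set t : Fin k → Finset (Fin k) := fun x =>
    if h : ∃ a ∈ V0, π a = x then {π (par h.choose)} else ((UF ξ r).image π)ᶜ with ht
  have hsub : Fintype.piFinset t ⊆
      Finset.univ.filter fun f : Fin k → Fin k => Valid ξ r f π := by
    intro f hf
    rw [Fintype.mem_piFinset] at hf
    rw [Finset.mem_filter]
    refine ⟨Finset.mem_univ _, hinj, ?_, ?_, hmono⟩
    · intro a ha hne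
      have h : ∃ b ∈ V0, π b = π a := ⟨a, (hV0' a).mpr ⟨ha, hne⟩, rfl⟩
      have h1 := hf (π a)
      simp only [ht, dif_pos h, Finset.mem_singleton] at h1
      rw [h1, hinj ((hV0' _).mp h.choose_spec.1).1 ha h.choose_spec.2]
    · intro x b hb hx
      by_contra hn
      have h : ¬ ∃ a ∈ V0, π a = x := by
        rintro ⟨a, ha, hax⟩
        exact hn ⟨a, ((hV0' a).mp ha).1, ((hV0' a).mp ha).2, hax⟩
      have h1 := hf x
      simp only [ht, dif_neg h, Finset.mem_compl, Finset.mem_image, not_exists, not_and] at h1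
      exact h1 b (mem_UF.mpr hb) hx.symm
  refine le_trans ?_ (Finset.card_le_card hsub)
  rw [Fintype.card_piFinset]
  have hAc : A.card + 1 = (UF ξ (r + 1)).card := by
    rw [hA, Finset.card_image_of_injOn (hinj.mono fun a ha => ((hV0' a).mp ha).1), hV0]
    exact Finset.card_erase_add_one (mem_UF.mpr (spine_mem ξ le_rfl))
  have h2 : ∀ x, (if x ∈ A then 1 else k - (UF ξ r).card) ≤ (t x).card := by
    intro x
    by_cases h : ∃ a ∈ V0, π a = x
    · have : x ∈ A := by simpa [hA] using h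
      simp only [ht, dif_pos h, this, if_true, Finset.card_singleton, le_refl]
    · have : x ∉ A := by simpa [hA] using h
      simp only [ht, dif_neg h, this, if_false, Finset.card_compl, Fintype.card_fin]
      exact Nat.sub_le_sub_left Finset.card_image_le _
  refine le_trans (le_of_eq ?_) (Finset.prod_le_prod' fun x _ => h2 x)
  rw [Finset.prod_ite, Finset.prod_const_one, one_mul, Finset.prod_const]
  congr 1
  have : (Finset.univ.filter fun x => ¬ x ∈ A) = Aᶜ := by ext x; simp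
  rw [this, Finset.card_compl, Fintype.card_fin]
  omega

/-- The vertices at which the mapping looks like the ray tree of `ξ`. -/
def YS {k : ℕ} (ξ : Nd → ℕ) (r : ℕ) (f : Fin k → Fin k) : Set (Fin k) :=
  {v | ∃ π, Valid ξ r f π ∧ π (0, []) = v}

lemma sum_YS_ge (ξ : Nd → ℕ) (r k : ℕ) :
    k.descFactorial (UF ξ (r + 1)).card * (k - (UF ξ r).card) ^ (k + 1 - (UF ξ (r + 1)).card) ≤
      (∑ f : Fin k → Fin k, (YS ξ r f).ncard) * ∏ a ∈ UF ξ r, (ξ a).factorial := by
  set P : (NN ξ r ↪ Fin k) → Nd → Fin k := fun e =>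
    Function.extend (nd ξ r) e fun _ => e (Sum.inl 0) with hP
  have hPn : ∀ e n, P e (nd ξ r n) = e n := fun e n => (nd_injective ξ r).extend_apply _ _ n
  have h1 : ∀ f : Fin k → Fin k,
      ((IncF ξ r k).filter fun e => Valid ξ r f (P e)).card ≤ (YS ξ r f).ncard := by
    intro f
    rw [← ncard_coe_finset]
    apply ncard_le_ncard_of_injOn (fun e => P e (0, []))
    · intro e he
      simp only [Finset.coe_filter, mem_ofPred_eq] at he
      exact ⟨P e, he.2, rfl⟩
    · intro e he e' he' h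
      simp only [Finset.coe_filter, mem_ofPred_eq] at he he'
      ext n
      have := (he.2.unique he'.2 h).2.2 (nd ξ r n) (range_nd ξ r ▸ mem_range_self n)
      rw [hPn, hPn] at this
      rw [this]
  have h2 : ∀ e ∈ IncF ξ r k, (k - (UF ξ r).card) ^ (k + 1 - (UF ξ (r + 1)).card) ≤
      (Finset.univ.filter fun f : Fin k → Fin k => Valid ξ r f (P e)).card := by
    intro e he
    apply card_valid_ge
    · rw [← range_nd]
      rintro _ ⟨n, rfl⟩ _ ⟨n', rfl⟩ h
      rw [hPn, hPn] at h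
      rw [e.injective h]
    · intro a ha c c' hcc hc'
      simp only [IncF, Finset.mem_filter, Finset.mem_univ, true_and] at he
      have h3 := @he ⟨a, mem_UF.mpr ha⟩ ⟨c, hcc.trans hc'⟩ ⟨c', hc'⟩ hcc
      simp only [← hPn] at h3
      exact h3
  have h3 : ∑ e ∈ IncF ξ r k,
      (Finset.univ.filter fun f : Fin k → Fin k => Valid ξ r f (P e)).card =
      ∑ f : Fin k → Fin k, ((IncF ξ r k).filter fun e => Valid ξ r f (P e)).card := by
    simp only [Finset.card_filter]
    exact Finset.sum_comm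
  have h4 : (IncF ξ r k).card * (k - (UF ξ r).card) ^ (k + 1 - (UF ξ (r + 1)).card) ≤
      ∑ f : Fin k → Fin k, (YS ξ r f).ncard := by
    refine le_trans ?_ (Finset.sum_le_sum fun f _ => h1 f)
    rw [← h3, ← smul_eq_mul, ← Finset.sum_const]
    exact Finset.sum_le_sum h2
  calc _ ≤ ((IncF ξ r k).card * ∏ a ∈ UF ξ r, (ξ a).factorial) *
        (k - (UF ξ r).card) ^ (k + 1 - (UF ξ (r + 1)).card) :=
        Nat.mul_le_mul_right _ (descFactorial_le_card_IncF ξ r k)
    _ = ((IncF ξ r k).card * (k - (UF ξ r).card) ^ (k + 1 - (UF ξ (r + 1)).card)) *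
        ∏ a ∈ UF ξ r, (ξ a).factorial := by ring
    _ ≤ _ := Nat.mul_le_mul_right _ h4

/-- The probability of the shape of `ξ`. -/
noncomputable def wt (ξ : Nd → ℕ) (r : ℕ) : ℝ :=
  Real.exp (-((UF ξ r).card : ℝ)) / ∏ a ∈ UF ξ r, ((ξ a).factorial : ℝ)

lemma wt_nonneg (ξ : Nd → ℕ) (r : ℕ) : 0 ≤ wt ξ r := by unfold wt; positivity

lemma law_cyl (ξ : Nd → ℕ) (r : ℕ) :
    offspringLaw {ξ' | ∀ a ∈ UF ξ r, ξ' a = ξ a} = ENNReal.ofReal (wt ξ r) := by
  have : {ξ' : Nd → ℕ | ∀ a ∈ UF ξ r, ξ' a = ξ a} = Set.pi (UF ξ r) fun a => {ξ a} := by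
    ext ξ'
    simp
  rw [this, offspringLaw, Measure.infinitePi_pi _ (fun _ _ => measurableSet_singleton _)]
  simp only [poissonMeasure_singleton]
  rw [← ENNReal.ofReal_prod_of_nonneg (fun _ _ => by positivity)]
  congr 1
  unfold wt
  rw [Finset.prod_div_distrib]
  congr 1
  simp only [NNReal.coe_one, one_pow, mul_one, Finset.prod_const]
  rw [← Real.exp_nat_mul]
  simp

lemma tendsto_lower (m I : ℕ) :
    Tendsto (fun k : ℕ => (1 - (m : ℝ) / k) ^ m * (1 + (-(I : ℝ)) / k) ^ k) atTop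
      (𝓝 (Real.exp (-(I : ℝ)))) := by
  have h1 : Tendsto (fun k : ℕ => (1 - (m : ℝ) / k) ^ m) atTop (𝓝 ((1 - 0) ^ m)) :=
    ((tendsto_const_div_atTop_nhds_zero_nat (m : ℝ)).const_sub 1).pow m
  have h2 := h1.mul (Real.tendsto_one_add_div_pow_exp (-(I : ℝ)))
  simpa using h2

lemma lower_le (ξ : Nd → ℕ) (r : ℕ) : ∀ᶠ k : ℕ in atTop,
    (1 - ((UF ξ (r + 1)).card : ℝ) / k) ^ (UF ξ (r + 1)).card *
        (1 + (-((UF ξ r).card : ℝ)) / k) ^ k / (∏ a ∈ UF ξ r, ((ξ a).factorial : ℝ)) *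
        (k * (k : ℝ) ^ k) ≤ ∑ f : Fin k → Fin k, ((YS ξ r f).ncard : ℝ) := by
  set m := (UF ξ (r + 1)).card with hm
  set I := (UF ξ r).card with hI
  have hm1 : 1 ≤ m := Finset.card_pos.mpr ⟨_, mem_UF.mpr (spine_mem ξ le_rfl)⟩
  filter_upwards [eventually_ge_atTop (m + I + 1)] with k hk
  have h1 := sum_YS_ge ξ r k
  rw [← hm, ← hI] at h1
  have h2 : (k - m) ^ m * (k - I) ^ (k + 1 - m) ≤
      (∑ f : Fin k → Fin k, (YS ξ r f).ncard) * ∏ a ∈ UF ξ r, (ξ a).factorial := by
    refine le_trans (Nat.mul_le_mul_right _ ?_) h1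
    exact (Nat.pow_le_pow_left (by omega) m).trans (Nat.pow_sub_le_descFactorial k m)
  have h3 : ((k : ℝ) - m) ^ m * ((k : ℝ) - I) ^ (k + 1 - m) ≤
      (∑ f : Fin k → Fin k, ((YS ξ r f).ncard : ℝ)) * ∏ a ∈ UF ξ r, ((ξ a).factorial : ℝ) := by
    rw [← Nat.cast_sub (by omega), ← Nat.cast_sub (by omega)]
    exact_mod_cast h2
  have hk0 : (0 : ℝ) < k := by exact_mod_cast (by omega : 0 < k)
  have hkm : (m : ℝ) ≤ k := by exact_mod_cast (by omega : m ≤ k)
  have hkI : (I : ℝ) ≤ k := by exact_mod_cast (by omega : I ≤ k)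
  have hI0 : (0 : ℝ) ≤ I := Nat.cast_nonneg _
  rw [div_mul_eq_mul_div, div_le_iff₀ (by positivity)]
  refine le_trans ?_ h3
  have e1 : 0 ≤ 1 + (-(I : ℝ)) / k := by
    rw [neg_div, ← sub_eq_add_neg, sub_nonneg, div_le_one hk0]
    exact hkI
  have e2 : 1 + (-(I : ℝ)) / k ≤ 1 := by
    rw [neg_div]
    have : 0 ≤ (I : ℝ) / k := by positivity
    linarith
  have e3 : 0 ≤ 1 - (m : ℝ) / k := by
    rw [sub_nonneg, div_le_one hk0]
    exact hkm
  calc (1 - (m : ℝ) / k) ^ m * (1 + (-(I : ℝ)) / k) ^ k * (k * (k : ℝ) ^ k)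
      ≤ (1 - (m : ℝ) / k) ^ m * (1 + (-(I : ℝ)) / k) ^ (k + 1 - m) * (k * (k : ℝ) ^ k) := by
        gcongr _ * ?_ * _
        exact pow_le_pow_of_le_one e1 e2 (by omega)
    _ = ((1 - (m : ℝ) / k) * k) ^ m * ((1 + (-(I : ℝ)) / k) * k) ^ (k + 1 - m) := by
        rw [mul_pow, mul_pow, ← pow_succ']
        have : (k : ℝ) ^ (k + 1) = (k : ℝ) ^ m * (k : ℝ) ^ (k + 1 - m) := by
          rw [← pow_add]
          congr 1
          omega
        rw [this]
        ring
    _ = _ := by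
        congr 2 <;> field_simp <;> ring

lemma fatou {W : Type} (s : Prop) (r D : ℕ) (F : SimpleGraph W) (u : W) {b : ℝ} (hb0 : 0 ≤ b)
    (hb : ENNReal.ofReal b < offspringLaw {ξ | Phi s r D F u (rayTree ξ) (0, [])}) :
    ∀ᶠ k : ℕ in atTop, b * (k * (k : ℝ) ^ k) ≤
      ∑ f : Fin k → Fin k, (cnt s r D F u (mapGraph f) : ℝ) := by
  set Φ : Set (Nd → ℕ) := {ξ | Phi s r D F u (rayTree ξ) (0, [])} with hΦ
  set key : (Nd → ℕ) → Finset (Nd × ℕ) := fun ξ => (UF ξ r).image fun a => (a, ξ a) with hkey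
  have hrep : ∀ t : key '' Φ, ∃ ξ ∈ Φ, key ξ = t := fun t => t.2
  choose rep hrep1 hrep2 using hrep
  have hcov : Φ ⊆ ⋃ t : key '' Φ, {ξ' | ∀ a ∈ UF (rep t) r, ξ' a = rep t a} := by
    intro ξ hξ
    refine mem_iUnion.mpr ⟨⟨key ξ, ξ, hξ, rfl⟩, fun a ha => ?_⟩
    have h1 : (a, rep ⟨key ξ, ξ, hξ, rfl⟩ a) ∈ key (rep ⟨key ξ, ξ, hξ, rfl⟩) :=
      Finset.mem_image_of_mem _ ha
    rw [hrep2] at h1
    obtain ⟨a', _, h2⟩ := Finset.mem_image.mp h1
    obtain ⟨rfl, h3⟩ := Prod.mk.inj h2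
    exact h3
  have h1 := hb.trans_le ((measure_mono hcov).trans (measure_iUnion_le _))
  simp only [law_cyl] at h1
  rw [ENNReal.tsum_eq_iSup_sum, lt_iSup_iff] at h1
  obtain ⟨T, hT⟩ := h1
  rw [← ENNReal.ofReal_sum_of_nonneg (fun t _ => wt_nonneg _ _),
    ENNReal.ofReal_lt_ofReal_iff_of_nonneg hb0] at hT
  have h2 : Tendsto (fun k : ℕ => ∑ t ∈ T,
      (1 - ((UF (rep t) (r + 1)).card : ℝ) / k) ^ (UF (rep t) (r + 1)).card *
        (1 + (-((UF (rep t) r).card : ℝ)) / k) ^ k / (∏ a ∈ UF (rep t) r, ((rep t a).factorial : ℝ)))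
      atTop (𝓝 (∑ t ∈ T, wt (rep t) r)) :=
    tendsto_finsetSum _ fun t _ => (tendsto_lower _ _).div_const _
  filter_upwards [h2.eventually (lt_mem_nhds hT),
    (eventually_all_finset T).mpr fun t _ => lower_le (rep t) r] with k hk1 hk2
  have h3 : ∀ f : Fin k → Fin k,
      ∑ t ∈ T, (YS (rep t) r f).ncard ≤ cnt s r D F u (mapGraph f) := by
    intro f
    simp only [ncard_eq_toFinset_card']
    rw [← Finset.card_biUnion, cnt, ncard_eq_toFinset_card']
    · apply Finset.card_le_card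
      intro v hv
      simp only [Finset.mem_biUnion, mem_toFinset] at hv
      obtain ⟨t, _, π, hπ, rfl⟩ := hv
      rw [mem_toFinset]
      exact (hπ.locIso.phi_iff s D F u).mpr (hrep1 t)
    · intro t _ t' _ hne
      rw [Function.onFun, Finset.disjoint_left]
      intro v hv hv'
      rw [mem_toFinset] at hv hv'
      obtain ⟨π, hπ, rfl⟩ := hv
      obtain ⟨π', hπ', h0⟩ := hv'
      obtain ⟨h4, h5, _⟩ := hπ.unique hπ' h0.symm
      apply hne
      apply Subtype.ext
      rw [← hrep2 t, ← hrep2 t']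
      have h6 : UF (rep t) r = UF (rep t') r := by
        ext a
        rw [mem_UF, mem_UF, h4]
      simp only [hkey]
      rw [← h6]
      apply Finset.image_congr
      intro a ha
      simp only
      rw [h5 a (mem_UF.mp ha)]
  calc b * (k * (k : ℝ) ^ k) ≤ _ := mul_le_mul_of_nonneg_right hk1.le (by positivity)
    _ ≤ ∑ t ∈ T, ∑ f : Fin k → Fin k, ((YS (rep t) r f).ncard : ℝ) := by
        rw [Finset.sum_mul]
        exact Finset.sum_le_sum hk2
    _ ≤ _ := by
        rw [Finset.sum_comm]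
        apply Finset.sum_le_sum
        intro f _
        exact_mod_cast h3 f

end Pool.Agent.MP_7f4e92_pr

end MrgPart2

-- ======== part 3: formerly Pool.Agent.MP_7f4e92_pr.McD
section MrgPart3

set_option autoImplicit false

open Finset

namespace Pool.Agent.MP_7f4e92_pr

lemma sum_cons_eq {α : Type} [Fintype α] {n : ℕ} (g : (Fin (n + 1) → α) → ℝ) :
    ∑ x, g x = ∑ a : α, ∑ y : Fin n → α, g (Fin.cons a y) := by
  rw [← (Fin.consEquiv fun _ : Fin (n + 1) => α).sum_comp, Fintype.sum_prod_type]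
  rfl

lemma mcd_mgf {α : Type} [Fintype α] [Nonempty α] {c l : ℝ} (hl : 0 ≤ l) (hlc : l * c ≤ 1) :
    ∀ (n : ℕ) (g : (Fin n → α) → ℝ),
      (∀ (x y : Fin n → α) (i : Fin n), (∀ j, j ≠ i → x j = y j) → g x ≤ g y + c) →
      ∑ x, Real.exp (l * ((∑ y, g y) / (Fintype.card α : ℝ) ^ n - g x)) ≤
        (Fintype.card α : ℝ) ^ n * Real.exp (n * (l * c) ^ 2) := by
  have hN : (0 : ℝ) < Fintype.card α := by exact_mod_cast Fintype.card_pos
  intro n
  induction n with
  | zero => intro g _; simp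
  | succ n ih =>
    intro g hg
    set N : ℝ := (Fintype.card α : ℝ) with hNdef
    set m : α → ℝ := fun a => (∑ y : Fin n → α, g (Fin.cons a y)) / N ^ n with hm
    set μ := (∑ y, g y) / N ^ (n + 1) with hμ
    have hμm : ∑ a, m a = N * μ := by
      rw [hμ, sum_cons_eq, hm]
      simp only
      rw [← sum_div]
      field_simp
      ring
    have hmab : ∀ a b, m a ≤ m b + c := by
      intro a b
      have h1 : ∑ y : Fin n → α, g (Fin.cons a y) ≤ ∑ y : Fin n → α, (g (Fin.cons b y) + c) := by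
        apply sum_le_sum
        intro y _
        apply hg _ _ 0
        intro j hj
        obtain ⟨j, rfl⟩ := Fin.exists_succ_eq.mpr hj
        simp
      rw [sum_add_distrib, sum_const, card_univ, Fintype.card_fun, Fintype.card_fin, nsmul_eq_mul]
        at h1
      simp only [hm]
      rw [div_add' _ _ _ (by positivity), div_le_div_iff_of_pos_right (by positivity)]
      push_cast at h1
      linarith
    have hclose : ∀ a, |μ - m a| ≤ c := by
      intro a
      have h1 : ∑ b, m b ≤ ∑ _b : α, (m a + c) := sum_le_sum fun b _ => hmab b a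
      have h2 : ∑ _b : α, (m a - c) ≤ ∑ b, m b := sum_le_sum fun b _ => by linarith [hmab a b]
      rw [sum_const, card_univ, nsmul_eq_mul, hμm] at h1 h2
      have h1' := le_of_mul_le_mul_left h1 hN
      have h2' := le_of_mul_le_mul_left h2 hN
      rw [abs_le]
      constructor <;> linarith
    have hexp : ∑ a, Real.exp (l * (μ - m a)) ≤ N * Real.exp ((l * c) ^ 2) := by
      calc ∑ a, Real.exp (l * (μ - m a)) ≤ ∑ a, (1 + l * (μ - m a) + (l * c) ^ 2) := by
            apply sum_le_sum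
            intro a _
            have h1 : |l * (μ - m a)| ≤ l * c := by
              rw [abs_mul, abs_of_nonneg hl]
              exact mul_le_mul_of_nonneg_left (hclose a) hl
            have h2 := Real.abs_exp_sub_one_sub_id_le (h1.trans hlc)
            have h3 : (l * (μ - m a)) ^ 2 ≤ (l * c) ^ 2 := by
              rw [← sq_abs]
              exact pow_le_pow_left₀ (abs_nonneg _) h1 2
            linarith [(abs_le.mp h2).2]
        _ = N * (1 + (l * c) ^ 2) := by
            rw [sum_add_distrib, sum_add_distrib, ← mul_sum, sum_sub_distrib, hμm]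
            simp only [sum_const, card_univ, nsmul_eq_mul]
            ring
        _ ≤ _ := by
            gcongr
            linarith [Real.add_one_le_exp ((l * c) ^ 2)]
    rw [sum_cons_eq]
    calc ∑ a, ∑ y : Fin n → α, Real.exp (l * (μ - g (Fin.cons a y)))
        = ∑ a, Real.exp (l * (μ - m a)) *
            ∑ y : Fin n → α, Real.exp (l * (m a - g (Fin.cons a y))) := by
          apply sum_congr rfl
          intro a _
          rw [mul_sum]
          apply sum_congr rfl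
          intro y _
          rw [← Real.exp_add]
          congr 1
          ring
      _ ≤ ∑ a, Real.exp (l * (μ - m a)) * (N ^ n * Real.exp (n * (l * c) ^ 2)) := by
          apply sum_le_sum
          intro a _
          gcongr
          apply ih (fun y => g (Fin.cons a y))
          intro x y i hxy
          apply hg _ _ i.succ
          intro j hj
          refine Fin.cases (fun _ => rfl) (fun j hj => ?_) j hj
          simpa using hxy j (fun h => hj (by rw [h]))
      _ ≤ N * Real.exp ((l * c) ^ 2) * (N ^ n * Real.exp (n * (l * c) ^ 2)) := by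
          rw [← sum_mul]
          gcongr
      _ = _ := by
          push_cast
          rw [add_mul, one_mul, Real.exp_add]
          ring

/-- One-sided bounded differences inequality for uniform random functions. -/
lemma mcd {α : Type} [Fintype α] [Nonempty α] {c ε : ℝ} (hc : 0 < c) (hε : 0 ≤ ε) (hεc : ε ≤ c)
    (n : ℕ) (g : (Fin n → α) → ℝ)
    (hg : ∀ (x y : Fin n → α) (i : Fin n), (∀ j, j ≠ i → x j = y j) → g x ≤ g y + c)
    (S : Finset (Fin n → α))
    (hS : ∀ x ∈ S, g x + ε * n ≤ (∑ y, g y) / (Fintype.card α : ℝ) ^ n) :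
    (S.card : ℝ) ≤ (Fintype.card α : ℝ) ^ n * Real.exp (-(ε ^ 2 / (4 * c ^ 2)) * n) := by
  set l := ε / (2 * c ^ 2) with hl
  have hl0 : 0 ≤ l := by positivity
  have hlc : l * c ≤ 1 := by
    have : l * c = ε / (2 * c) := by rw [hl]; field_simp
    rw [this, div_le_one (by positivity)]
    linarith
  have h1 := mcd_mgf hl0 hlc n g hg
  have h2 : (S.card : ℝ) * Real.exp (l * (ε * n)) ≤
      ∑ x, Real.exp (l * ((∑ y, g y) / (Fintype.card α : ℝ) ^ n - g x)) := by
    calc (S.card : ℝ) * Real.exp (l * (ε * n)) = ∑ _x ∈ S, Real.exp (l * (ε * n)) := by simp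
      _ ≤ ∑ x ∈ S, Real.exp (l * ((∑ y, g y) / (Fintype.card α : ℝ) ^ n - g x)) := by
          apply sum_le_sum
          intro x hx
          have := hS x hx
          gcongr
          linarith
      _ ≤ _ := sum_le_sum_of_subset_of_nonneg (subset_univ _) fun _ _ _ => (Real.exp_pos _).le
  have h3 := h2.trans h1
  rw [← le_div_iff₀ (Real.exp_pos _), mul_div_assoc, ← Real.exp_sub] at h3
  refine h3.trans (le_of_eq ?_)
  congr 2
  rw [hl]
  field_simp
  ring

end Pool.Agent.MP_7f4e92_pr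

end MrgPart3

-- marker of a merged file
example : 731051 + 64602 = 731051 + 64602 := rfl
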