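import Pool.Agent.MP_7f4e92_pr.McD

set_option autoImplicit false

open Set SimpleGraph Filter MeasureTheory ProbabilityTheory
open scoped Topology ENNReal Classical

namespace Pool.Agent.MP_7f4e92_pr

instance : IsProbabilityMeasure offspringLaw := by
  unfold offspringLaw
  infer_instance

lemma map_bad {W : Type} (s : Prop) (r : ℕ) (F : SimpleGraph W) (u : W) {ε a : ℝ} (hε : 0 < ε)
    (hε1 : ε ≤ 1) (ha : a ≤ offspringLaw.real {ξ | BallIso (rayTree ξ) (0, []) r F u ↔ s}) :
    ∀ᶠ D : ℕ in atTop, ∀ᶠ k : ℕ in atTop,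
      ((Finset.univ.filter fun f : Fin k → Fin k =>
        (cnt s r D F u (mapGraph f) : ℝ) < (a - ε) * k).card : ℝ) ≤
      (k : ℝ) ^ k * Real.exp (-((ε / 2) ^ 2 / (4 * (4 * ((D : ℝ) + 1) ^ r) ^ 2)) * k) := by
  by_cases hb : a - ε / 2 < 0
  · refine Eventually.of_forall fun D => Eventually.of_forall fun k => ?_
    have : (Finset.univ.filter fun f : Fin k → Fin k =>
        (cnt s r D F u (mapGraph f) : ℝ) < (a - ε) * k) = ∅ := by
      apply Finset.filter_eq_empty_iff.mpr
      intro f _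
      have h1 : (a - ε) * k ≤ 0 := mul_nonpos_of_nonpos_of_nonneg (by linarith) (Nat.cast_nonneg k)
      have h2 : (0 : ℝ) ≤ cnt s r D F u (mapGraph f) := Nat.cast_nonneg _
      linarith
    rw [this]
    simp only [Finset.card_empty, Nat.cast_zero]
    positivity
  rw [not_lt] at hb
  have hmono : Monotone fun D : ℕ => {ξ | Phi s r D F u (rayTree ξ) (0, [])} :=
    fun D D' h ξ hξ => ⟨hξ.1, hξ.2.trans h⟩
  have hU : (⋃ D : ℕ, {ξ | Phi s r D F u (rayTree ξ) (0, [])}) =
      {ξ | BallIso (rayTree ξ) (0, []) r F u ↔ s} := by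
    ext ξ
    simp only [mem_iUnion, mem_ofPred_eq]
    exact ⟨fun ⟨D, h⟩ => h.1, fun h => ⟨_, h, le_rfl⟩⟩
  have hlim := tendsto_measure_iUnion_atTop (μ := offspringLaw) hmono
  rw [hU] at hlim
  have hlt : ENNReal.ofReal (a - ε / 2) <
      offspringLaw {ξ | BallIso (rayTree ξ) (0, []) r F u ↔ s} := by
    rw [ENNReal.ofReal_lt_iff_lt_toReal hb (measure_ne_top _ _)]
    have : a - ε / 2 < a := by linarith
    exact this.trans_le ha
  filter_upwards [hlim.eventually (lt_mem_nhds hlt)] with D hD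
  filter_upwards [fatou s r D F u hb hD, eventually_gt_atTop 0] with k hk hk0
  have : Nonempty (Fin k) := ⟨⟨0, hk0⟩⟩
  have h1 : (1 : ℝ) ≤ ((D : ℝ) + 1) ^ r := one_le_pow₀ (by linarith [Nat.cast_nonneg (α := ℝ) D])
  have := mcd (α := Fin k) (c := 4 * ((D : ℝ) + 1) ^ r) (ε := ε / 2) (by positivity)
    (by positivity) (by linarith) k (fun f => (cnt s r D F u (mapGraph f) : ℝ))
    (fun f g i h => by exact_mod_cast cnt_mapGraph_lip s r D F u f g i h)
    (Finset.univ.filter fun f : Fin k → Fin k =>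
        (cnt s r D F u (mapGraph f) : ℝ) < (a - ε) * k) (by
      intro f hf
      rw [Finset.mem_filter] at hf
      have hk' : (0 : ℝ) < k := by exact_mod_cast hk0
      rw [Fintype.card_fin, le_div_iff₀ (by positivity)]
      refine le_trans ?_ hk
      rw [← mul_assoc]
      gcongr
      linarith [hf.2])
  simpa only [Fintype.card_fin] using this

end Pool.Agent.MP_7f4e92_pr
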