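import Mathlib.CategoryTheory.Countable
import Mathlib.Topology.Sheaves.Presheaf
import Mathlib.Analysis.SpecialFunctions.Stirling
import Mathlib.Combinatorics.SetFamily.FourFunctions
import Mathlib.Combinatorics.SimpleGraph.Connectivity.Finite
import Mathlib.RingTheory.PiTensorProduct
import Mathlib.Probability.Combinatorics.BinomialRandomGraph.Defs
import Pool.Agent.MP_7f4e92_pr.MapBad

-- ======== part 0: formerly Pool.Agent.MP_7f4e92_pr.ProdSpace
section MrgPart0

set_option autoImplicit false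

open Finset MeasureTheory
open scoped Classical

namespace Pool.Agent.MP_7f4e92_pr

variable {E : Type} [Fintype E]

/-- The product Bernoulli weight. -/
noncomputable def wB (p : ℝ) (ω : E → Bool) : ℝ := ∏ e, if ω e then p else 1 - p

/-- Expectation under the product Bernoulli weight. -/
noncomputable def Ex (p : ℝ) (g : (E → Bool) → ℝ) : ℝ := ∑ ω, wB p ω * g ω

/-- Indicator of a proposition. -/
noncomputable def ind (P : Prop) : ℝ := if P then 1 else 0

lemma ind_nonneg (P : Prop) : 0 ≤ ind P := by unfold ind; split_ifs <;> norm_num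

lemma ind_le_one (P : Prop) : ind P ≤ 1 := by unfold ind; split_ifs <;> norm_num

lemma ind_of {P : Prop} (h : P) : ind P = 1 := if_pos h

lemma ind_of_not {P : Prop} (h : ¬ P) : ind P = 0 := if_neg h

lemma ind_mono {P Q : Prop} (h : P → Q) : ind P ≤ ind Q := by
  by_cases hP : P
  · rw [ind_of hP, ind_of (h hP)]
  · rw [ind_of_not hP]; exact ind_nonneg _

lemma ind_and (P Q : Prop) : ind (P ∧ Q) = ind P * ind Q := by
  by_cases hP : P <;> by_cases hQ : Q <;> simp [ind, hP, hQ]

lemma ind_not (P : Prop) : ind (¬ P) = 1 - ind P := by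
  by_cases hP : P <;> simp [ind, hP]

lemma wB_nonneg {p : ℝ} (h0 : 0 ≤ p) (h1 : p ≤ 1) (ω : E → Bool) : 0 ≤ wB p ω :=
  prod_nonneg fun e _ => by split_ifs <;> linarith

lemma Ex_prod (p : ℝ) (g : E → Bool → ℝ) :
    Ex p (fun ω => ∏ e, g e (ω e)) = ∏ e, (p * g e true + (1 - p) * g e false) := by
  unfold Ex wB
  simp only [← prod_mul_distrib]
  have := Finset.prod_univ_sum (fun _ : E => (univ : Finset Bool))
    (fun e b => (if b then p else 1 - p) * g e b)
  rw [Fintype.piFinset_univ] at this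
  rw [← this]
  simp

lemma Ex_one (p : ℝ) : Ex p (fun _ : E → Bool => 1) = 1 := by
  simpa using Ex_prod (E := E) p (fun _ _ => 1)

lemma Ex_const (p c : ℝ) : Ex p (fun _ : E → Bool => c) = c := by
  have := Ex_one (E := E) p
  unfold Ex at this ⊢
  simp only [mul_one] at this
  rw [← sum_mul, this, one_mul]

lemma Ex_add (p : ℝ) (f g : (E → Bool) → ℝ) :
    Ex p (fun ω => f ω + g ω) = Ex p f + Ex p g := by
  simp [Ex, mul_add, sum_add_distrib]

lemma Ex_sub (p : ℝ) (f g : (E → Bool) → ℝ) :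
    Ex p (fun ω => f ω - g ω) = Ex p f - Ex p g := by
  simp [Ex, mul_sub, sum_sub_distrib]

lemma Ex_mul (p c : ℝ) (f : (E → Bool) → ℝ) : Ex p (fun ω => c * f ω) = c * Ex p f := by
  simp [Ex, mul_sum, mul_left_comm]

lemma Ex_sum {ι : Type} (p : ℝ) (s : Finset ι) (f : ι → (E → Bool) → ℝ) :
    Ex p (fun ω => ∑ i ∈ s, f i ω) = ∑ i ∈ s, Ex p (f i) := by
  simp only [Ex, mul_sum]
  exact sum_comm

lemma Ex_mono {p : ℝ} (h0 : 0 ≤ p) (h1 : p ≤ 1) {f g : (E → Bool) → ℝ} (h : ∀ ω, f ω ≤ g ω) :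
    Ex p f ≤ Ex p g :=
  sum_le_sum fun ω _ => mul_le_mul_of_nonneg_left (h ω) (wB_nonneg h0 h1 ω)

lemma Ex_nonneg {p : ℝ} (h0 : 0 ≤ p) (h1 : p ≤ 1) {f : (E → Bool) → ℝ} (h : ∀ ω, 0 ≤ f ω) :
    0 ≤ Ex p f :=
  sum_nonneg fun ω _ => mul_nonneg (wB_nonneg h0 h1 ω) (h ω)

lemma Ex_cyl (p θ : ℝ) (A B M : Finset E) (hAB : Disjoint A B) (hAM : Disjoint A M)
    (hBM : Disjoint B M) :
    Ex p (fun ω => ind ((∀ e ∈ A, ω e = true) ∧ ∀ e ∈ B, ω e = false) *
      θ ^ (M.filter fun e => ω e = true).card) =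
      p ^ A.card * (1 - p) ^ B.card * (1 - p + p * θ) ^ M.card := by
  have h1 : (fun ω : E → Bool => ind ((∀ e ∈ A, ω e = true) ∧ ∀ e ∈ B, ω e = false) *
      θ ^ (M.filter fun e => ω e = true).card) = fun ω => ∏ e,
        ((if e ∈ A then (if ω e = true then 1 else 0) else 1) *
          (if e ∈ B then (if ω e = false then 1 else 0) else 1) *
          (if e ∈ M then (if ω e = true then θ else 1) else 1)) := by
    ext ω
    rw [prod_mul_distrib, prod_mul_distrib, Fintype.prod_ite_mem, Fintype.prod_ite_mem,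
      Fintype.prod_ite_mem, prod_boole, prod_boole, ind_and, prod_ite, prod_const_one, mul_one,
      prod_const]
    simp only [ind]
    congr
  rw [h1, Ex_prod p fun e b => ((if e ∈ A then (if b = true then 1 else 0) else 1) *
          (if e ∈ B then (if b = false then 1 else 0) else 1) *
          (if e ∈ M then (if b = true then θ else 1) else 1))]
  rw [← prod_const, ← prod_const, ← prod_const, ← Fintype.prod_ite_mem A, ← Fintype.prod_ite_mem B,
    ← Fintype.prod_ite_mem M, ← prod_mul_distrib, ← prod_mul_distrib]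
  apply prod_congr rfl
  intro e _
  have h2 : e ∈ A → e ∉ B := fun h => disjoint_left.mp hAB h
  have h3 : e ∈ A → e ∉ M := fun h => disjoint_left.mp hAM h
  have h4 : e ∈ B → e ∉ M := fun h => disjoint_left.mp hBM h
  by_cases hA : e ∈ A <;> by_cases hB : e ∈ B <;> by_cases hM : e ∈ M <;> simp_all
  ring

lemma Ex_cyl' (p : ℝ) (A B : Finset E) (hAB : Disjoint A B) :
    Ex p (fun ω => ind ((∀ e ∈ A, ω e = true) ∧ ∀ e ∈ B, ω e = false)) =
      p ^ A.card * (1 - p) ^ B.card := by
  simpa using Ex_cyl p 1 A B ∅ hAB (disjoint_empty_right _) (disjoint_empty_right _)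

lemma Ex_fkg {p : ℝ} (h0 : 0 ≤ p) (h1 : p ≤ 1) {f g : (E → Bool) → ℝ} (hf0 : ∀ ω, 0 ≤ f ω)
    (hg0 : ∀ ω, 0 ≤ g ω) (hf : Antitone f) (hg : Antitone g) :
    Ex p f * Ex p g ≤ Ex p (fun ω => f ω * g ω) := by
  have hμ : ∀ a b : E → Bool, wB p a * wB p b = wB p (a ⊔ b) * wB p (a ⊓ b) := by
    intro a b
    unfold wB
    rw [← prod_mul_distrib, ← prod_mul_distrib]
    apply prod_congr rfl
    intro e _
    rcases h1 : a e with _ | _ <;> rcases h2 : b e with _ | _ <;> simp [mul_comm, h1, h2]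
  have := fkg (α := (E → Bool)ᵒᵈ) (μ := fun a => wB p (OrderDual.ofDual a))
    (f := fun a => f (OrderDual.ofDual a)) (g := fun a => g (OrderDual.ofDual a))
    (fun a => wB_nonneg h0 h1 _) (fun a => hf0 _) (fun a => hg0 _)
    (fun a b h => hf h) (fun a b h => hg h) (fun a b => (hμ _ _).le)
  have e1 : ∑ a : (E → Bool)ᵒᵈ, wB p (OrderDual.ofDual a) = 1 := by
    have := Ex_one (E := E) p
    unfold Ex at this
    simp only [mul_one] at this
    exact this
  rw [e1, one_mul] at this
  exact this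

lemma Ex_fkg_prod {ι : Type} {p : ℝ} (h0 : 0 ≤ p) (h1 : p ≤ 1) (s : Finset ι)
    (f : ι → (E → Bool) → ℝ) (hf0 : ∀ i ω, 0 ≤ f i ω) (hf : ∀ i, Antitone (f i)) :
    ∏ i ∈ s, Ex p (f i) ≤ Ex p (fun ω => ∏ i ∈ s, f i ω) := by
  induction s using Finset.induction_on with
  | empty => simp [Ex_one]
  | insert i s hi ih =>
    simp only [prod_insert hi]
    refine le_trans (mul_le_mul_of_nonneg_left ih (Ex_nonneg h0 h1 (hf0 i))) ?_
    apply Ex_fkg h0 h1 (hf0 i) (fun ω => prod_nonneg fun j _ => hf0 j ω) (hf i)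
    intro a b h
    exact prod_le_prod (fun j _ => hf0 j b) (fun j _ => hf j h)

lemma Ex_indep (p : ℝ) (e : E) (g : (E → Bool) → ℝ)
    (hg : ∀ ω b, g (Function.update ω e b) = g ω) :
    Ex p (fun ω => ind (ω e = true) * g ω) = p * Ex p g := by
  set φ : (E → Bool) → (E → Bool) := fun ω => Function.update ω e (!ω e) with hφ
  have hinv : Function.Involutive φ := by
    intro ω
    simp [hφ]
  set R : (E → Bool) → ℝ := fun ω => ∏ e' ∈ univ.erase e, if ω e' then p else 1 - p with hR
  have hw : ∀ ω, wB p ω = (if ω e then p else 1 - p) * R ω := fun ω =>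
    (mul_prod_erase univ (fun e' => if ω e' then p else 1 - p) (mem_univ e)).symm
  have hRφ : ∀ ω, R (φ ω) = R ω := by
    intro ω
    apply prod_congr rfl
    intro e' he'
    simp only [hφ]
    rw [Function.update_of_ne (ne_of_mem_erase he')]
  have h1 : ∑ ω, (1 - ind (ω e = true)) * (R ω * g ω) = ∑ ω, ind (ω e = true) * (R ω * g ω) := by
    rw [← Equiv.sum_comp hinv.toPerm]
    apply sum_congr rfl
    intro ω _
    change (1 - ind (φ ω e = true)) * (R (φ ω) * g (φ ω)) = _
    rw [hRφ, hφ]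
    simp only [Function.update_self, hg]
    cases ω e <;> simp [ind]
  have h2 : Ex p (fun ω => ind (ω e = true) * g ω) = p * ∑ ω, ind (ω e = true) * (R ω * g ω) := by
    unfold Ex
    rw [mul_sum]
    apply sum_congr rfl
    intro ω _
    rw [hw]
    rcases h : ω e with _ | _ <;> simp [ind, h]
    ring
  have h3 : Ex p g = p * ∑ ω, ind (ω e = true) * (R ω * g ω) +
      (1 - p) * ∑ ω, (1 - ind (ω e = true)) * (R ω * g ω) := by
    unfold Ex
    rw [mul_sum, mul_sum, ← sum_add_distrib]
    apply sum_congr rfl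
    intro ω _
    rw [hw]
    rcases h : ω e with _ | _ <;> simp [ind] <;> ring
  rw [h2, h3, h1]
  ring

/-- The graph of an edge configuration. -/
def gr {V : Type} (ω : Sym2 V → Bool) : SimpleGraph V := SimpleGraph.fromEdgeSet {e | ω e = true}

lemma gr_adj {V : Type} (ω : Sym2 V → Bool) (a b : V) :
    (gr ω).Adj a b ↔ ω s(a, b) = true ∧ a ≠ b := by
  simp [gr, SimpleGraph.fromEdgeSet_adj]

lemma measurableSingletonClass_graph {V : Type} [Fintype V] :
    MeasurableSingletonClass (SimpleGraph V) := by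
  constructor
  intro G
  have : ({G} : Set (SimpleGraph V)) = SimpleGraph.edgeSet ⁻¹' {G.edgeSet} := by
    ext H
    simp
  rw [this]
  exact SimpleGraph.measurable_edgeSet (measurableSet_singleton _)

lemma integral_binomialRandom {V : Type} [Fintype V] (p : unitInterval) (g : SimpleGraph V → ℝ) :
    ∫ G, g G ∂(SimpleGraph.binomialRandom V p) = Ex (p : ℝ) fun ω : Sym2 V → Bool => g (gr ω) := by
  have := measurableSingletonClass_graph (V := V)
  rw [integral_fintype Integrable.of_finite]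
  have h1 : ∀ G : SimpleGraph V, (SimpleGraph.binomialRandom V p).real {G} =
      Ex (p : ℝ) fun ω : Sym2 V → Bool => ind (gr ω = G) := by
    intro G
    set B : Finset (Sym2 V) := (univ.filter fun e : Sym2 V => ¬ e.IsDiag) \ G.edgeSet.toFinset
      with hB
    have h2 : (fun ω : Sym2 V → Bool => ind (gr ω = G)) = fun ω =>
        ind ((∀ e ∈ G.edgeSet.toFinset, ω e = true) ∧ ∀ e ∈ B, ω e = false) := by
      ext ω
      congr 1
      apply propext
      constructor
      · rintro rfl
        constructor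
        · intro e he
          induction e using Sym2.ind with
          | _ a b => exact ((gr_adj ω a b).mp (by simpa using he)).1
        · intro e he
          induction e using Sym2.ind with
          | _ a b =>
            simp only [hB, mem_sdiff, mem_filter, mem_univ, Sym2.mk_isDiag_iff, true_and,
              Set.mem_toFinset, SimpleGraph.mem_edgeSet, gr_adj, not_and] at he
            by_contra h
            exact he.2 (by simpa using h) he.1
      · rintro ⟨h3, h4⟩
        ext a b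
        rw [gr_adj]
        constructor
        · rintro ⟨h5, h6⟩
          by_contra h7
          have := h4 s(a, b) (by simp [hB, h6, h7])
          simp [this] at h5
        · intro h5
          exact ⟨h3 s(a, b) (by simpa using h5), h5.ne⟩
    rw [h2, Ex_cyl' _ _ _ disjoint_sdiff, Measure.real, SimpleGraph.binomialRandom_singleton]
    have h3 : B.card = (Nat.card V).choose 2 - G.edgeSet.ncard := by
      rw [hB, card_sdiff_of_subset, Set.ncard_eq_toFinset_card', Nat.card_eq_fintype_card,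
        ← Sym2.card_subtype_not_diag, Fintype.card_subtype]
      intro e he
      simp only [Set.mem_toFinset] at he
      simpa using G.not_isDiag_of_mem_edgeSet he
    rw [h3, Set.ncard_eq_toFinset_card']
    simp
  simp only [h1, smul_eq_mul]
  have h2 : (fun ω : Sym2 V → Bool => g (gr ω)) = fun ω => ∑ G, g G * ind (gr ω = G) := by
    ext ω
    simp [ind]
  rw [h2, Ex_sum]
  apply sum_congr rfl
  intro G _
  rw [Ex_mul, mul_comm]

end Pool.Agent.MP_7f4e92_pr

end MrgPart0

-- ======== part 1: formerly Pool.Agent.MP_7f4e92_pr.Comp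
section MrgPart1

set_option autoImplicit false

open Finset Filter
open scoped Classical Topology

namespace Pool.Agent.MP_7f4e92_pr

variable {V : Type} [Fintype V]

lemma exists_parent {V : Type} (G : SimpleGraph V) (v : V) :
    ∃ f : V → V, f v = v ∧ ∀ w, G.Reachable v w → w ≠ v →
      G.Adj w (f w) ∧ G.dist (f w) v < G.dist w v := by
  have : ∀ w, ∃ y, (w = v → y = v) ∧ (G.Reachable v w → w ≠ v →
      G.Adj w y ∧ G.dist y v < G.dist w v) := by
    intro w
    by_cases hw : w = v
    · exact ⟨v, fun _ => rfl, fun _ h => absurd hw h⟩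
    by_cases hr : G.Reachable v w
    · obtain ⟨q, hq⟩ := hr.symm.exists_walk_length_eq_dist
      cases q with
      | nil => exact absurd rfl hw
      | cons h q =>
        refine ⟨_, fun h => absurd h hw, fun _ _ => ⟨h, ?_⟩⟩
        rw [← hq]
        exact Nat.lt_succ_of_le (SimpleGraph.dist_le q)
    · exact ⟨v, fun _ => rfl, fun h => absurd h hr⟩
  choose f hf using this
  exact ⟨f, (hf v).1 rfl, fun w => (hf w).2⟩

lemma injOn_edges {V : Type} (f : V → V) (h : V → ℕ) (T : Set V) (hT : ∀ w ∈ T, h (f w) < h w) :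
    Set.InjOn (fun w => s(w, f w)) T := by
  intro a ha b hb hab
  rcases Sym2.eq_iff.mp hab with h1 | h1
  · exact h1.1
  · have h2 := hT a ha
    have h3 := hT b hb
    rw [h1.2] at h2
    rw [← h1.1] at h3
    omega

/-- The vertices reached from `v` inside `A`. -/
noncomputable def CA (A : Finset V) (ω : Sym2 V → Bool) (v : V) : Finset V :=
  univ.filter (Relation.ReflTransGen (fun a b => a ∈ A ∧ b ∈ A ∧ (gr ω).Adj a b) v)

/-- The component of `v`. -/
noncomputable def comp (ω : Sym2 V → Bool) (v : V) : Finset V := univ.filter ((gr ω).Reachable v)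

lemma mem_comp {ω : Sym2 V → Bool} {v w : V} : w ∈ comp ω v ↔ (gr ω).Reachable v w := by
  simp [comp]

lemma CA_univ (ω : Sym2 V → Bool) (v : V) : CA univ ω v = comp ω v := by
  ext w
  simp [CA, comp, SimpleGraph.reachable_iff_reflTransGen]

lemma CA_congr {A : Finset V} {ω ω' : Sym2 V → Bool} (v : V)
    (h : ∀ a ∈ A, ∀ c ∈ A, ω' s(a, c) = ω s(a, c)) : CA A ω' v = CA A ω v := by
  have : (fun a c => a ∈ A ∧ c ∈ A ∧ (gr ω').Adj a c) =
      fun a c => a ∈ A ∧ c ∈ A ∧ (gr ω).Adj a c := by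
    ext a c
    refine and_congr_right fun ha => and_congr_right fun hc => ?_
    rw [gr_adj, gr_adj, h a ha c hc]
  unfold CA
  rw [this]

lemma card_CA_le (A : Finset V) (ω : Sym2 V → Bool) (v : V) :
    ((CA A ω v).card : ℝ) ≤
      1 + ∑ w ∈ A.erase v, ind (ω s(v, w) = true) * (CA (A.erase v) ω w).card := by
  have h1 : CA A ω v ⊆ insert v (((A.erase v).filter fun w => ω s(v, w) = true).biUnion
      fun w => CA (A.erase v) ω w) := by
    intro w hw
    simp only [CA, mem_filter, mem_univ, true_and] at hw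
    simp only [mem_insert, mem_biUnion, mem_filter, CA, mem_univ, true_and]
    induction hw with
    | refl => exact Or.inl rfl
    | @tail a b _ hab ih =>
      by_cases hb : b = v
      · exact Or.inl hb
      right
      by_cases ha : a = v
      · subst ha
        exact ⟨b, ⟨mem_erase.mpr ⟨hb, hab.2.1⟩, ((gr_adj _ _ _).mp hab.2.2).1⟩, .refl⟩
      · obtain ⟨w, hw1, hw2⟩ := ih.resolve_left ha
        exact ⟨w, hw1, hw2.tail ⟨mem_erase.mpr ⟨ha, hab.1⟩, mem_erase.mpr ⟨hb, hab.2.1⟩, hab.2.2⟩⟩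
  have h2 := (card_le_card h1).trans ((card_insert_le _ _).trans
    (Nat.add_le_add_right card_biUnion_le 1))
  rw [sum_filter] at h2
  have h3 : (((CA A ω v).card : ℕ) : ℝ) ≤ ((∑ w ∈ A.erase v,
      if ω s(v, w) = true then (CA (A.erase v) ω w).card else 0) + 1 : ℕ) := by exact_mod_cast h2
  refine h3.trans (le_of_eq ?_)
  push_cast
  rw [add_comm]
  congr 1
  apply sum_congr rfl
  intro w _
  by_cases h : ω s(v, w) = true <;> simp [ind, h]

lemma Ex_CA_le {p x : ℝ} (h0 : 0 ≤ p) (h1 : p ≤ 1) (hx : Fintype.card V * p ≤ x) (hx1 : x < 1)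
    (m : ℕ) : ∀ A : Finset V, A.card = m → ∀ v ∈ A,
      Ex p (fun ω => ((CA A ω v).card : ℝ)) ≤ 1 / (1 - x) := by
  induction m with
  | zero =>
    intro A hA v hv
    rw [card_eq_zero.mp hA] at hv
    simp at hv
  | succ m ih =>
    intro A hA v hv
    refine (Ex_mono h0 h1 fun ω => card_CA_le A ω v).trans ?_
    rw [Ex_add, Ex_one, Ex_sum]
    have h2 : ∀ w ∈ A.erase v, Ex p (fun ω : Sym2 V → Bool =>
        ind (ω s(v, w) = true) * ((CA (A.erase v) ω w).card : ℝ)) ≤ p * (1 / (1 - x)) := by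
      intro w hw
      rw [Ex_indep]
      · exact mul_le_mul_of_nonneg_left (ih _ (by rw [card_erase_of_mem hv, hA]; rfl) w hw) h0
      · intro ω b
        rw [CA_congr]
        intro a ha c hc
        refine @Function.update_of_ne _ _ (_) _ _ (fun h => ?_) _ _
        rcases Sym2.eq_iff.mp h with h | h
        · exact (mem_erase.mp ha).1 h.1
        · exact (mem_erase.mp hc).1 h.2
    have h3 := sum_le_card_nsmul _ _ _ h2
    have h4 : ((A.erase v).card : ℝ) ≤ Fintype.card V := by exact_mod_cast card_le_univ _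
    have h5 : 0 < 1 - x := by linarith
    rw [nsmul_eq_mul] at h3
    have h6 : ((A.erase v).card : ℝ) * (p * (1 / (1 - x))) ≤ x * (1 / (1 - x)) := by
      rw [← mul_assoc]
      apply mul_le_mul_of_nonneg_right _ (by positivity)
      exact (mul_le_mul_of_nonneg_right h4 h0).trans hx
    have h7 : 1 + x * (1 / (1 - x)) = 1 / (1 - x) := by field_simp; ring
    linarith

/-- The pairs that meet `S`. -/
noncomputable def touch (S : Finset V) : Finset (Sym2 V) := univ.filter fun e => ∃ x ∈ S, x ∈ e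

lemma mk_mem_touch {S : Finset V} {a b : V} : s(a, b) ∈ touch S ↔ a ∈ S ∨ b ∈ S := by
  simp only [touch, mem_filter, mem_univ, true_and, Sym2.mem_iff]
  constructor
  · rintro ⟨x, hx, rfl | rfl⟩
    · exact Or.inl hx
    · exact Or.inr hx
  · rintro (h | h)
    · exact ⟨a, h, Or.inl rfl⟩
    · exact ⟨b, h, Or.inr rfl⟩

lemma card_touch_le (S : Finset V) : (touch S).card ≤ S.card * Fintype.card V := by
  have : touch S ⊆ (S ×ˢ (univ : Finset V)).image fun q => s(q.1, q.2) := by
    intro e he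
    induction e using Sym2.ind with
    | _ a b =>
      rcases mk_mem_touch.mp he with h | h
      · exact mem_image.mpr ⟨(a, b), by simp [h], rfl⟩
      · exact mem_image.mpr ⟨(b, a), by simp [h], Sym2.eq_swap⟩
  refine (card_le_card this).trans (card_image_le.trans ?_)
  simp

lemma comp_congr {ω ω' : Sym2 V → Bool} {v : V} (h : ∀ e ∈ touch (comp ω v), ω' e = ω e) :
    comp ω' v = comp ω v := by
  ext w
  simp only [mem_comp, SimpleGraph.reachable_iff_reflTransGen]
  constructor
  · intro hw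
    induction hw with
    | refl => exact .refl
    | @tail a b _ hab ih =>
      refine ih.tail ?_
      rw [gr_adj] at hab ⊢
      rw [← h _ (mk_mem_touch.mpr (Or.inl (mem_comp.mpr
        ((SimpleGraph.reachable_iff_reflTransGen _ _).mpr ih))))]
      exact hab
  · intro hw
    induction hw with
    | refl => exact .refl
    | @tail a b ha hab ih =>
      refine ih.tail ?_
      rw [gr_adj] at hab ⊢
      rw [h _ (mk_mem_touch.mpr (Or.inl (mem_comp.mpr
        ((SimpleGraph.reachable_iff_reflTransGen _ _).mpr ha))))]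
      exact hab

/-- The component of `v` together with the present pairs meeting it. -/
noncomputable def key (ω : Sym2 V → Bool) (v : V) : Finset V × Finset (Sym2 V) :=
  (comp ω v, (touch (comp ω v)).filter fun e => ω e = true)

lemma Ex_comp (p : ℝ) (v : V) (g : Finset V → ℝ) :
    Ex p (fun ω => g (comp ω v)) = ∑ κ ∈ univ.image (fun ω => key ω v),
      g κ.1 * (p ^ κ.2.card * (1 - p) ^ (touch κ.1 \ κ.2).card) := by
  have h1 : (fun ω => g (comp ω v)) = fun ω => ∑ κ ∈ univ.image (fun ω => key ω v),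
      g κ.1 * ind ((∀ e ∈ κ.2, ω e = true) ∧ ∀ e ∈ touch κ.1 \ κ.2, ω e = false) := by
    ext ω
    rw [sum_eq_single (key ω v)]
    · rw [ind_of, mul_one]
      · rfl
      · refine ⟨fun e he => (mem_filter.mp he).2, fun e he => ?_⟩
        have := Finset.mem_sdiff.mp he
        by_contra h
        exact this.2 (mem_filter.mpr ⟨this.1, by simpa using h⟩)
    · intro κ hκ hne
      obtain ⟨ω', -, rfl⟩ := mem_image.mp hκ
      rw [ind_of_not, mul_zero]
      rintro ⟨h2, h3⟩
      apply hne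
      have h4 : ∀ e ∈ touch (comp ω' v), ω e = ω' e := by
        intro e he
        by_cases h : ω' e = true
        · rw [h, h2 e (mem_filter.mpr ⟨he, h⟩)]
        · rw [h3 e (mem_sdiff.mpr ⟨he, fun h' => h (mem_filter.mp h').2⟩)]
          simpa using h
      unfold key
      rw [comp_congr h4]
      congr 1
      exact filter_congr fun e he => by rw [h4 e he]
    · intro h
      exact absurd (mem_image_of_mem _ (mem_univ ω)) h
  rw [h1, Ex_sum]
  apply sum_congr rfl
  intro κ _
  rw [Ex_mul, Ex_cyl' _ _ _ disjoint_sdiff]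

lemma card_comp_le (ω : Sym2 V → Bool) (v : V) : (comp ω v).card ≤ (key ω v).2.card + 1 := by
  obtain ⟨f, -, hf⟩ := exists_parent (gr ω) v
  have h1 : ((comp ω v).erase v).card ≤ (key ω v).2.card := by
    apply card_le_card_of_injOn (fun w => s(w, f w))
    · intro w hw
      simp only [coe_erase, Set.mem_sdiff, mem_coe, Set.mem_singleton_iff] at hw
      simp only [key, coe_filter, Set.mem_ofPred_eq]
      exact ⟨mk_mem_touch.mpr (Or.inl hw.1), ((gr_adj _ _ _).mp (hf w (mem_comp.mp hw.1) hw.2).1).1⟩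
    · apply injOn_edges f (fun w => (gr ω).dist w v)
      intro w hw
      simp only [coe_erase, Set.mem_sdiff, mem_coe, Set.mem_singleton_iff] at hw
      exact (hf w (mem_comp.mp hw.1) hw.2).2
  have h2 := pred_card_le_card_erase (s := comp ω v) (a := v)
  omega

lemma Ex_comp_change {p p' : ℝ} (h0 : 0 < p') (hpp : p' ≤ p) (h1 : p < 1)
    (hc : p' * (1 - p') ^ Fintype.card V ≤ p * (1 - p) ^ Fintype.card V) (v : V)
    (g : Finset V → ℝ) (hg : ∀ S, 0 ≤ g S) :
    p' * Ex p' (fun ω => g (comp ω v)) ≤ p * Ex p (fun ω => g (comp ω v)) := by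
  rw [Ex_comp, Ex_comp, mul_sum, mul_sum]
  apply sum_le_sum
  intro κ hκ
  obtain ⟨ω, -, rfl⟩ := mem_image.mp hκ
  rw [mul_left_comm, mul_left_comm p]
  apply mul_le_mul_of_nonneg_left _ (hg _)
  have ha := card_comp_le ω v
  have hb : (touch (key ω v).1 \ (key ω v).2).card ≤ (comp ω v).card * Fintype.card V :=
    (card_le_card sdiff_subset).trans (card_touch_le _)
  generalize (touch (key ω v).1 \ (key ω v).2).card = b at hb ⊢
  generalize (key ω v).2.card = a at ha ⊢
  generalize (comp ω v).card = k at ha hb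
  generalize Fintype.card V = n at hb hc
  obtain ⟨i, hi⟩ := Nat.exists_eq_add_of_le ha
  obtain ⟨j, hj⟩ := Nat.exists_eq_add_of_le hb
  have q0 : 0 < 1 - p := by linarith
  have q1 : 1 - p ≤ 1 - p' := by linarith
  have h2 : (p' * (1 - p') ^ n) ^ k ≤ (p * (1 - p) ^ n) ^ k :=
    pow_le_pow_left₀ (mul_nonneg h0.le (pow_nonneg (by linarith) _)) hc k
  rw [mul_pow, mul_pow, ← pow_mul, ← pow_mul, mul_comm n k, hj, pow_add, pow_add] at h2
  rw [← mul_assoc, ← mul_assoc, ← pow_succ', ← pow_succ', hi, pow_add, pow_add]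
  have h3 : p' ^ k * (1 - p') ^ b ≤ p ^ k * (1 - p) ^ b := by
    have h4 : (1 - p) ^ j ≤ (1 - p') ^ j := pow_le_pow_left₀ q0.le q1 j
    have h5 : 0 < (1 - p') ^ j := pow_pos (by linarith) j
    have h6 : 0 ≤ p ^ k * (1 - p) ^ b := mul_nonneg (pow_nonneg (by linarith) _) (pow_nonneg q0.le _)
    apply le_of_mul_le_mul_right _ h5
    calc p' ^ k * (1 - p') ^ b * (1 - p') ^ j = p' ^ k * ((1 - p') ^ b * (1 - p') ^ j) := by ring
      _ ≤ p ^ k * ((1 - p) ^ b * (1 - p) ^ j) := h2
      _ = p ^ k * (1 - p) ^ b * (1 - p) ^ j := by ring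
      _ ≤ _ := mul_le_mul_of_nonneg_left h4 h6
  have h4 : p' ^ i ≤ p ^ i := pow_le_pow_left₀ h0.le hpp i
  calc p' ^ k * p' ^ i * (1 - p') ^ b = p' ^ i * (p' ^ k * (1 - p') ^ b) := by ring
    _ ≤ p ^ i * (p ^ k * (1 - p) ^ b) :=
      mul_le_mul h4 h3 (mul_nonneg (pow_nonneg h0.le _) (pow_nonneg (by linarith) _))
        (pow_nonneg (by linarith) _)
    _ = _ := by ring

/-- Finite bound for the existence of a large component. -/
lemma Ex_large_le {p p' x M : ℝ} (h0 : 0 < p') (hpp : p' ≤ p) (h1 : p < 1)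
    (hc : p' * (1 - p') ^ Fintype.card V ≤ p * (1 - p) ^ Fintype.card V)
    (hx : Fintype.card V * p' ≤ x) (hx1 : x < 1) (hM : 0 < M) :
    Ex p (fun ω : Sym2 V → Bool => ind (∃ v, M < (comp ω v).card)) ≤
      Fintype.card V / M * (1 - p' / p * (1 - 1 / (1 - x) / M)) := by
  have hp : 0 < p := h0.trans_le hpp
  have h2 : ∀ v : V, Ex p (fun ω => ind (M < (comp ω v).card)) ≤
      1 - p' / p * (1 - 1 / (1 - x) / M) := by
    intro v
    have h3 := Ex_comp_change h0 hpp h1 hc v (fun S => ind (¬ M < S.card)) fun S => ind_nonneg _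
    simp only [ind_not, Ex_sub, Ex_one] at h3
    have h4 : Ex p' (fun ω => ind (M < (comp ω v).card)) ≤ 1 / (1 - x) / M := by
      have h5 := Ex_CA_le h0.le (by linarith) hx hx1 _ univ rfl v (mem_univ v)
      simp only [CA_univ] at h5
      rw [le_div_iff₀ hM, mul_comm, ← Ex_mul]
      refine (Ex_mono h0.le (by linarith) fun ω => ?_).trans h5
      by_cases h : M < (comp ω v).card
      · rw [ind_of h, mul_one]; exact h.le
      · rw [ind_of_not h, mul_zero]; exact Nat.cast_nonneg _
    have h5 : p' * (1 - 1 / (1 - x) / M) ≤ p * (1 - Ex p fun ω => ind (M < (comp ω v).card)) :=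
      le_trans (mul_le_mul_of_nonneg_left (by linarith) h0.le) h3
    rw [div_mul_eq_mul_div]
    have h6 := (div_le_iff₀' hp).mpr h5
    linarith
  have h3 : ∀ ω : Sym2 V → Bool, ind (∃ v, M < (comp ω v).card) ≤
      1 / M * ∑ v, ind (M < (comp ω v).card) := by
    intro ω
    by_cases h : ∃ v, M < (comp ω v).card
    · rw [ind_of h, one_div, ← div_eq_inv_mul, le_div_iff₀ hM, one_mul]
      obtain ⟨v, hv⟩ := h
      refine hv.le.trans ?_
      refine le_trans ?_ (sum_le_sum_of_subset_of_nonneg (subset_univ (comp ω v))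
        fun _ _ _ => ind_nonneg _)
      rw [card_eq_sum_ones, Nat.cast_sum]
      apply sum_le_sum
      intro w hw
      have : comp ω w = comp ω v := by
        ext y
        simp only [mem_comp]
        exact ⟨fun h => (mem_comp.mp hw).trans h, fun h => (mem_comp.mp hw).symm.trans h⟩
      rw [this, ind_of hv]
      simp
    · rw [ind_of_not h]
      exact mul_nonneg (by positivity) (sum_nonneg fun _ _ => ind_nonneg _)
  refine (Ex_mono hp.le h1.le h3).trans ?_
  rw [Ex_mul, Ex_sum]
  have h4 := sum_le_card_nsmul univ _ _ fun v _ => h2 v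
  rw [nsmul_eq_mul, card_univ] at h4
  calc _ ≤ 1 / M * (Fintype.card V * (1 - p' / p * (1 - 1 / (1 - x) / M))) :=
        mul_le_mul_of_nonneg_left h4 (by positivity)
    _ = _ := by ring

end Pool.Agent.MP_7f4e92_pr

end MrgPart1

-- ======== part 2: formerly Pool.Agent.MP_7f4e92_pr.Term2
section MrgPart2

set_option autoImplicit false

open Finset Filter
open scoped Classical Topology

namespace Pool.Agent.MP_7f4e92_pr

lemma tendsto_p_zero {p : ℕ → ℝ} {c : ℝ} (hp : Tendsto (fun n : ℕ => n * p n) atTop (𝓝 c)) :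
    Tendsto p atTop (𝓝 0) := by
  have := hp.mul (tendsto_inv_atTop_nhds_zero_nat (𝕜 := ℝ))
  rw [mul_zero] at this
  refine this.congr' ?_
  filter_upwards [eventually_gt_atTop 0] with n hn
  have : (n : ℝ) ≠ 0 := by positivity
  field_simp

lemma tendsto_one_sub_pow {p : ℕ → ℝ} {c : ℝ} (hp : Tendsto (fun n : ℕ => n * p n) atTop (𝓝 c)) :
    Tendsto (fun n => (1 - p n) ^ n) atTop (𝓝 (Real.exp (-c))) := by
  have := Real.tendsto_one_add_pow_exp_of_tendsto (g := fun n => -p n) (t := -c)
    (by simpa using hp.neg)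
  simpa only [sub_eq_add_neg] using this

lemma term2 {p : ℕ → ℝ} (h0 : ∀ n, 0 ≤ p n) (h1 : ∀ n, p n ≤ 1)
    (hp : Tendsto (fun n : ℕ => n * p n) atTop (𝓝 1)) {δ : ℝ} (hδ : 0 < δ) :
    Tendsto (fun n : ℕ => Ex (p n) fun ω : Sym2 (Fin n) → Bool =>
      ind (∃ v, δ * n < (comp ω v).card)) atTop (𝓝 0) := by
  rw [tendsto_order]
  refine ⟨fun a ha => Eventually.of_forall fun n =>
    ha.trans_le (Ex_nonneg (h0 n) (h1 n) fun _ => ind_nonneg _), fun a ha => ?_⟩
  obtain ⟨x, hx0, hx1, hxa⟩ : ∃ x : ℝ, 0 < x ∧ x < 1 ∧ 1 / δ * (1 - x) < a := by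
    refine ⟨max (1 / 2) (1 - δ * a / 2), by positivity, max_lt (by norm_num)
      (by have := mul_pos hδ ha; linarith), ?_⟩
    rw [one_div, ← div_eq_inv_mul, div_lt_iff₀ hδ]
    have := le_max_right (1 / 2) (1 - δ * a / 2)
    have := mul_pos hδ ha
    linarith
  have hx' : Tendsto (fun n : ℕ => (n : ℝ) * (x / n)) atTop (𝓝 x) := by
    refine tendsto_const_nhds.congr' ?_
    filter_upwards [eventually_gt_atTop 0] with n hn
    have : (n : ℝ) ≠ 0 := by positivity
    field_simp
  have hlt : x * Real.exp (-x) < 1 * Real.exp (-1) := by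
    have h2 := Real.add_one_lt_exp (x := x - 1) (by linarith)
    rw [one_mul, show (-1 : ℝ) = (x - 1) + -x by ring, Real.exp_add]
    exact mul_lt_mul_of_pos_right (by linarith) (Real.exp_pos _)
  have e1 := (hx'.mul (tendsto_one_sub_pow hx')).eventually_lt
    (hp.mul (tendsto_one_sub_pow hp)) hlt
  have e2 := hp.eventually (lt_mem_nhds hx1)
  have e3 := (tendsto_p_zero hp).eventually (gt_mem_nhds one_pos)
  have l1 : Tendsto (fun n : ℕ => 1 / δ * (1 - x / (n * p n) * (1 - 1 / (1 - x) / δ * (n : ℝ)⁻¹)))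
      atTop (𝓝 (1 / δ * (1 - x / 1 * (1 - 1 / (1 - x) / δ * 0)))) :=
    (((tendsto_const_nhds.div hp one_ne_zero).mul
      ((tendsto_inv_atTop_nhds_zero_nat.const_mul _).const_sub _)).const_sub _).const_mul _
  have e4 := l1.eventually (gt_mem_nhds (show _ < a by simpa using hxa))
  filter_upwards [e1, e2, e3, e4, eventually_gt_atTop 0] with n e1 e2 e3 e4 hn
  have hn' : (0 : ℝ) < n := by exact_mod_cast hn
  have := Ex_large_le (V := Fin n) (p := p n) (p' := x / n) (x := x) (M := δ * n) (by positivity)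
    (by rw [div_le_iff₀' hn']; exact e2.le) e3 (by
      rw [Fintype.card_fin]
      apply le_of_mul_le_mul_left _ hn'
      rw [← mul_assoc, ← mul_assoc]
      exact e1.le) (by rw [Fintype.card_fin]; field_simp; exact le_rfl) hx1 (by positivity)
  refine this.trans_lt (lt_of_eq_of_lt ?_ e4)
  rw [Fintype.card_fin]
  have : 1 - x ≠ 0 := by linarith
  have : p n ≠ 0 := by
    intro h
    rw [h, mul_zero] at e2
    linarith
  field_simp

end Pool.Agent.MP_7f4e92_pr

end MrgPart2

-- ======== part 3: formerly Pool.Agent.MP_7f4e92_pr.Trees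
section MrgPart3

set_option autoImplicit false

open Finset
open scoped Classical

namespace Pool.Agent.MP_7f4e92_pr

variable {X : Type}

/-- A map without cycles other than fixed points. -/
def Acyc (f : X → X) : Prop := ∃ h : X → ℕ, ∀ x, f x ≠ x → h (f x) < h x

/-- The orbit of `x` meets `y`. -/
def Hits (f : X → X) (x y : X) : Prop := ∃ m, f^[m] x = y

lemma Hits.unique {f : X → X} {x y z : X} (h1 : Hits f x y) (h2 : Hits f x z) (hy : f y = y)
    (hz : f z = z) : y = z := by
  obtain ⟨m, h1⟩ := h1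
  obtain ⟨m', h2⟩ := h2
  have e1 : f^[m' + m] x = y := by
    rw [Function.iterate_add_apply, h1, Function.iterate_fixed hy]
  have e2 : f^[m + m'] x = z := by
    rw [Function.iterate_add_apply, h2, Function.iterate_fixed hz]
  rw [← e1, ← e2, add_comm]

lemma hits_iff {f : X → X} {x y : X} (h : x ≠ y) : Hits f x y ↔ Hits f (f x) y := by
  constructor
  · rintro ⟨m, hm⟩
    cases m with
    | zero => exact absurd hm h
    | succ m => exact ⟨m, hm⟩
  · rintro ⟨m, hm⟩
    exact ⟨m + 1, hm⟩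

lemma Acyc.update {f : X → X} (hf : Acyc f) {v ρ : X} (hv : ¬ Hits f v ρ) :
    Acyc (Function.update f ρ v) := by
  obtain ⟨h, hh⟩ := hf
  refine ⟨fun x => if Hits f x ρ then h x + h v + 1 else h x, fun x hx => ?_⟩
  by_cases hxρ : x = ρ
  · subst hxρ
    simp only [Function.update_self]
    rw [if_neg hv, if_pos ⟨0, rfl⟩]
    omega
  · rw [Function.update_of_ne hxρ] at hx ⊢
    have := hh x hx
    simp only [← hits_iff hxρ]
    split_ifs <;> omega

lemma Acyc.exists_root {f : X → X} (hf : Acyc f) (x : X) : ∃ ρ, f ρ = ρ ∧ Hits f x ρ := by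
  obtain ⟨h, hh⟩ := hf
  induction hn : h x using Nat.strong_induction_on generalizing x with
  | _ n ih =>
    by_cases hx : f x = x
    · exact ⟨x, hx, 0, rfl⟩
    · obtain ⟨ρ, h1, m, h2⟩ := ih _ (hn ▸ hh x hx) (f x) rfl
      exact ⟨ρ, h1, m + 1, h2⟩

variable [Fintype X]

/-- The fixed points. -/
noncomputable def roots (f : X → X) : Finset X := univ.filter fun x => f x = x

/-- Rooted forests with `j` roots. -/
noncomputable def forests (X : Type) [Fintype X] (j : ℕ) : Finset (X → X) :=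
  univ.filter fun f => Acyc f ∧ (roots f).card = j

lemma forests_step (j : ℕ) : (forests X (j + 1)).card * (Fintype.card X * j) ≤
    (forests X j).card * (Fintype.card X - j) := by
  have h1 : (forests X (j + 1)).card * (Fintype.card X * j) ≤
      ((forests X (j + 1)).sigma fun f => (univ : Finset X).sigma fun v =>
        (roots f).filter fun ρ => ¬ Hits f v ρ).card := by
    rw [card_sigma, ← smul_eq_mul]
    apply card_nsmul_le_sum
    intro f hf
    rw [card_sigma, ← smul_eq_mul, ← card_univ]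
    apply card_nsmul_le_sum
    intro v _
    have h2 := card_filter_add_card_filter_not (s := roots f) fun ρ => Hits f v ρ
    have h3 : ((roots f).filter fun ρ => Hits f v ρ).card ≤ 1 := by
      rw [card_le_one]
      intro a ha b hb
      simp only [roots, mem_filter] at ha hb
      exact ha.2.unique hb.2 ha.1.2 hb.1.2
    have h4 := (mem_filter.mp hf).2.2
    omega
  have h2 : ((forests X j).sigma fun f => (roots f)ᶜ).card =
      (forests X j).card * (Fintype.card X - j) := by
    rw [card_sigma, ← smul_eq_mul]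
    apply sum_eq_card_nsmul
    intro f hf
    rw [card_compl, (mem_filter.mp hf).2.2]
  refine h1.trans (le_trans ?_ h2.le)
  apply card_le_card_of_injOn (fun q => ⟨Function.update q.1 q.2.2 q.2.1, q.2.2⟩)
  · rintro ⟨f, v, ρ⟩ hq
    simp only [coe_sigma, Set.mem_sigma_iff, mem_coe, forests, mem_filter, mem_univ, true_and,
      roots, mem_compl] at hq ⊢
    obtain ⟨⟨h3, h4⟩, h5, h6⟩ := hq
    have hne : v ≠ ρ := fun h => h6 ⟨0, h⟩
    refine ⟨⟨h3.update h6, ?_⟩, by simpa using hne⟩
    have : (univ.filter fun x => Function.update f ρ v x = x) =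
        (univ.filter fun x => f x = x).erase ρ := by
      ext x
      by_cases hx : x = ρ
      · subst hx
        simp [hne]
      · simp [hx]
    rw [this, card_erase_of_mem (by simpa using h5), h4]
    rfl
  · rintro ⟨f, v, ρ⟩ hq ⟨f', v', ρ'⟩ hq' h
    simp only [coe_sigma, Set.mem_sigma_iff, mem_coe, forests, mem_filter, mem_univ, true_and,
      roots] at hq hq'
    simp only [Sigma.mk.injEq, heq_eq_eq] at h
    obtain ⟨h1, rfl⟩ := h
    have h2 : v = v' := by simpa using congrFun h1 ρ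
    subst h2
    have h3 : f = f' := by
      ext x
      by_cases hx : x = ρ
      · rw [hx, hq.2.1, hq'.2.1]
      · simpa [hx] using congrFun h1 x
    subst h3
    rfl

lemma forests_ge (i : ℕ) (hi : i < Fintype.card X) :
    (Fintype.card X - 1).choose i * Fintype.card X ^ i ≤
      (forests X (Fintype.card X - i)).card := by
  induction i with
  | zero =>
    simp only [Nat.choose_zero_right, pow_zero, mul_one, Nat.sub_zero]
    apply card_pos.mpr
    exact ⟨id, by simp [forests, roots, Acyc]⟩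
  | succ i ih =>
    have h1 := forests_step (X := X) (Fintype.card X - (i + 1))
    have h2 := ih (by omega)
    rw [show Fintype.card X - (i + 1) + 1 = Fintype.card X - i by omega,
      show Fintype.card X - (Fintype.card X - (i + 1)) = i + 1 by omega] at h1
    apply Nat.le_of_mul_le_mul_right _ (Nat.succ_pos i)
    refine le_trans (le_of_eq ?_) ((Nat.mul_le_mul_right _ h2).trans h1)
    have h3 := Nat.choose_succ_right_eq (Fintype.card X - 1) i
    rw [show Fintype.card X - 1 - i = Fintype.card X - (i + 1) by omega] at h3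
    calc _ = ((Fintype.card X - 1).choose (i + 1) * (i + 1)) * Fintype.card X ^ (i + 1) := by
          simp only [Nat.succ_eq_add_one]; ring
      _ = _ := by rw [h3]; ring

/-- Many rooted trees with a common root. -/
lemma exists_trees (k : ℕ) (hk : 0 < k) : ∃ (ρ : Fin k) (T : Finset (Fin k → Fin k)),
    k ^ (k - 1) ≤ k * T.card ∧ ∀ f ∈ T, Acyc f ∧ ∀ x, f x = x ↔ x = ρ := by
  have h1 := forests_ge (X := Fin k) (k - 1) (by simp; omega)
  rw [Fintype.card_fin, Nat.choose_self, one_mul, show k - (k - 1) = 1 by omega] at h1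
  set T : Fin k → Finset (Fin k → Fin k) := fun ρ =>
    univ.filter fun f => Acyc f ∧ ∀ x, f x = x ↔ x = ρ with hT
  have h2 : forests (Fin k) 1 ⊆ univ.biUnion T := by
    intro f hf
    simp only [forests, mem_filter, mem_univ, true_and] at hf
    obtain ⟨ρ, hρ⟩ := card_eq_one.mp hf.2
    simp only [mem_biUnion, mem_univ, true_and, hT, mem_filter]
    refine ⟨ρ, hf.1, fun x => ?_⟩
    rw [← mem_singleton (a := ρ), ← hρ]
    simp [roots]
  have : Nonempty (Fin k) := ⟨⟨0, hk⟩⟩
  obtain ⟨ρ, -, hρ⟩ := exists_max_image univ (fun ρ => (T ρ).card) univ_nonempty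
  refine ⟨ρ, T ρ, h1.trans ((card_le_card h2).trans ?_), fun f hf => (mem_filter.mp hf).2⟩
  simpa using card_biUnion_le_card_mul univ T _ hρ

lemma tree_ext {X : Type} {f g : X → X} {ρ : X} (hf : Acyc f) (hfρ : ∀ x, f x = x ↔ x = ρ)
    (hgρ : g ρ = ρ) (h : ∀ x, x ≠ ρ → ∃ y, y ≠ ρ ∧ s(x, f x) = s(y, g y)) : f = g := by
  obtain ⟨r, hr⟩ := hf
  ext x
  induction hn : r x using Nat.strong_induction_on generalizing x with
  | _ n ih =>
    by_cases hx : x = ρ
    · rw [hx, hgρ, (hfρ ρ).mpr rfl]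
    obtain ⟨y, hy, hxy⟩ := h x hx
    rcases Sym2.eq_iff.mp hxy with h1 | h1
    · rw [h1.2, h1.1]
    · have h2 := hr x fun h => hx ((hfρ x).mp h)
      have h3 := hr y fun h => hy ((hfρ y).mp h)
      have h4 := ih _ (hn ▸ h2) (f x) rfl
      rw [h1.2] at h4 h2
      rw [h4, ← h1.1] at h3
      omega

end Pool.Agent.MP_7f4e92_pr

end MrgPart3

-- ======== part 4: formerly Pool.Agent.MP_7f4e92_pr.Term1
section MrgPart4

set_option autoImplicit false

open Finset Filter
open scoped Classical Topology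

namespace Pool.Agent.MP_7f4e92_pr

lemma second_moment {E ι : Type} [Fintype E] {p β : ℝ} (h0 : 0 ≤ p) (h1 : p ≤ 1) (hβ : 0 ≤ β)
    (I : Finset ι) (Ev : ι → (E → Bool) → Prop)
    (hpair : ∀ i ∈ I, ∀ j ∈ I, i ≠ j → Ex p (fun ω => ind (Ev i ω ∧ Ev j ω)) ≤
      β * (Ex p (fun ω => ind (Ev i ω)) * Ex p (fun ω => ind (Ev j ω))))
    (hμ : 0 < ∑ i ∈ I, Ex p (fun ω => ind (Ev i ω))) :
    Ex p (fun ω => ind (∀ i ∈ I, ¬ Ev i ω)) ≤
      1 / (∑ i ∈ I, Ex p (fun ω => ind (Ev i ω))) + (β - 1) := by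
  set q : ι → ℝ := fun i => Ex p (fun ω => ind (Ev i ω)) with hq
  set μ := ∑ i ∈ I, q i with hμ'
  have hq0 : ∀ i, 0 ≤ q i := fun i => Ex_nonneg h0 h1 fun _ => ind_nonneg _
  have h2 : ∀ ω, ind (∀ i ∈ I, ¬ Ev i ω) ≤ 1 / μ ^ 2 *
      ((∑ i ∈ I, ∑ j ∈ I, ind (Ev i ω ∧ Ev j ω)) - 2 * μ * (∑ i ∈ I, ind (Ev i ω)) + μ ^ 2) := by
    intro ω
    have : (∑ i ∈ I, ∑ j ∈ I, ind (Ev i ω ∧ Ev j ω)) - 2 * μ * (∑ i ∈ I, ind (Ev i ω)) + μ ^ 2 =
        ((∑ i ∈ I, ind (Ev i ω)) - μ) ^ 2 := by
      simp only [ind_and]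
      rw [← sum_mul_sum]
      ring
    rw [this]
    by_cases h : ∀ i ∈ I, ¬ Ev i ω
    · rw [ind_of h, sum_eq_zero fun i hi => ind_of_not (h i hi)]
      apply le_of_eq
      field_simp
      ring
    · rw [ind_of_not h]
      positivity
  refine (Ex_mono h0 h1 h2).trans ?_
  rw [Ex_mul, Ex_add, Ex_sub, Ex_mul, Ex_sum, Ex_sum, Ex_const]
  have h3 : ∑ i ∈ I, Ex p (fun ω => ∑ j ∈ I, ind (Ev i ω ∧ Ev j ω)) ≤ μ + β * μ ^ 2 := by
    have : μ + β * μ ^ 2 = ∑ i ∈ I, (q i + ∑ j ∈ I, β * (q i * q j)) := by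
      rw [sum_add_distrib, sq, hμ', sum_mul_sum, mul_sum]
      simp only [mul_sum]
    rw [this]
    apply sum_le_sum
    intro i hi
    rw [Ex_sum, ← add_sum_erase _ _ hi]
    apply add_le_add
    · simp only [and_self]
      exact le_rfl
    · refine (sum_le_sum fun j hj => hpair i hi j (mem_of_mem_erase hj)
        (ne_of_mem_erase hj).symm).trans ?_
      exact sum_le_sum_of_subset_of_nonneg (erase_subset _ _) fun j _ _ =>
        mul_nonneg hβ (mul_nonneg (hq0 i) (hq0 j))
  calc _ ≤ 1 / μ ^ 2 * (μ + β * μ ^ 2 - 2 * μ * μ + μ ^ 2) := by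
        apply mul_le_mul_of_nonneg_left _ (by positivity)
        linarith
    _ = _ := by field_simp; ring

variable {V : Type} [Fintype V] {k : ℕ}

/-- The pairs of a rooted tree placed by `ι`. -/
noncomputable def treeE (ι : Fin k → V) (ρ : Fin k) (f : Fin k → Fin k) : Finset (Sym2 V) :=
  (univ.erase ρ).image fun x => s(ι x, ι (f x))

/-- The placed tree is present and isolated. -/
def TreeEv (S : Finset V) (ι : Fin k → V) (ρ : Fin k) (f : Fin k → Fin k) (ω : Sym2 V → Bool) :
    Prop :=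
  (∀ e ∈ treeE ι ρ f, ω e = true) ∧ ∀ e ∈ touch S \ treeE ι ρ f, ω e = false

lemma TreeEv.comp_eq {S : Finset V} {ι : Fin k → V} {ρ : Fin k} {f : Fin k → Fin k}
    {ω : Sym2 V → Bool} (h : TreeEv S ι ρ f ω) (hι : Function.Injective ι)
    (hS : ∀ a, a ∈ S ↔ ∃ x, ι x = a) (hf : Acyc f) (hρ : ∀ x, f x = x ↔ x = ρ) {a : V}
    (ha : a ∈ S) : comp ω a = S := by
  have h1 : ∀ x, (gr ω).Reachable (ι x) (ι ρ) := by
    obtain ⟨r, hr⟩ := hf
    intro x
    induction hn : r x using Nat.strong_induction_on generalizing x with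
    | _ n ih =>
      by_cases hx : x = ρ
      · rw [hx]
      have hx' : f x ≠ x := fun h => hx ((hρ x).mp h)
      refine SimpleGraph.Reachable.trans (SimpleGraph.Adj.reachable ?_)
        (ih _ (hn ▸ hr x hx') (f x) rfl)
      rw [gr_adj]
      exact ⟨h.1 _ (mem_image.mpr ⟨x, by simp [hx], rfl⟩), fun h => hx' (hι h).symm⟩
  ext b
  rw [mem_comp]
  constructor
  · intro hb
    rw [SimpleGraph.reachable_iff_reflTransGen] at hb
    induction hb with
    | refl => exact ha
    | @tail b c _ hbc ih =>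
      have h2 : s(b, c) ∈ treeE ι ρ f := by
        by_contra h3
        have := h.2 _ (Finset.mem_sdiff.mpr ⟨mk_mem_touch.mpr (Or.inl ih), h3⟩)
        rw [((gr_adj _ _ _).mp hbc).1] at this
        exact absurd this (by simp)
      obtain ⟨x, -, hx⟩ := mem_image.mp h2
      rcases Sym2.eq_iff.mp hx with h3 | h3
      · exact (hS c).mpr ⟨_, h3.2⟩
      · exact (hS c).mpr ⟨_, h3.1⟩
  · intro hb
    obtain ⟨x, rfl⟩ := (hS a).mp ha
    obtain ⟨y, rfl⟩ := (hS b).mp hb
    exact (h1 x).trans (h1 y).symm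

lemma treeE_subset {S : Finset V} {ι : Fin k → V} (hS : ∀ a, a ∈ S ↔ ∃ x, ι x = a) (ρ : Fin k)
    (f : Fin k → Fin k) : treeE ι ρ f ⊆ touch S := by
  intro e he
  obtain ⟨x, -, rfl⟩ := mem_image.mp he
  exact mk_mem_touch.mpr (Or.inl ((hS _).mpr ⟨x, rfl⟩))

lemma treeE_disjoint {S S' : Finset V} {ι : Fin k → V} (hS : ∀ a, a ∈ S ↔ ∃ x, ι x = a) (ρ : Fin k)
    (f : Fin k → Fin k) (hd : Disjoint S S') : Disjoint (treeE ι ρ f) (touch S') := by
  rw [Finset.disjoint_left]
  intro e he he'
  obtain ⟨x, -, rfl⟩ := mem_image.mp he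
  rcases mk_mem_touch.mp he' with h | h
  · exact Finset.disjoint_left.mp hd ((hS _).mpr ⟨_, rfl⟩) h
  · exact Finset.disjoint_left.mp hd ((hS _).mpr ⟨_, rfl⟩) h

lemma card_touch_inter {S S' : Finset V} (hd : Disjoint S S') :
    (touch S ∩ touch S').card ≤ S.card * S'.card := by
  have : touch S ∩ touch S' ⊆ (S ×ˢ S').image fun q => s(q.1, q.2) := by
    intro e he
    induction e using Sym2.ind with
    | _ a b =>
      rw [mem_inter, mk_mem_touch, mk_mem_touch] at he
      rcases he with ⟨h1 | h1, h2 | h2⟩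
      · exact absurd h2 (Finset.disjoint_left.mp hd h1)
      · exact mem_image.mpr ⟨(a, b), by simp [h1, h2], rfl⟩
      · exact mem_image.mpr ⟨(b, a), by simp [h1, h2], Sym2.eq_swap⟩
      · exact absurd h2 (Finset.disjoint_left.mp hd h1)
  refine (card_le_card this).trans (card_image_le.trans ?_)
  simp

lemma exists_place (V : Type) [Nonempty V] (k : ℕ) : ∃ ι : Finset V → Fin k → V,
    ∀ S : Finset V, S.card = k → Function.Injective (ι S) ∧ ∀ a, a ∈ S ↔ ∃ x, ι S x = a := by
  have : ∀ S : Finset V, ∃ ι : Fin k → V,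
      S.card = k → Function.Injective ι ∧ ∀ a, a ∈ S ↔ ∃ x, ι x = a := by
    intro S
    by_cases h : S.card = k
    · refine ⟨fun x => (S.equivFinOfCardEq h).symm x, fun _ => ⟨fun x y hxy =>
        (S.equivFinOfCardEq h).symm.injective (Subtype.ext hxy), fun a => ⟨fun ha =>
        ⟨S.equivFinOfCardEq h ⟨a, ha⟩, by simp⟩, ?_⟩⟩⟩
      rintro ⟨x, rfl⟩
      exact Subtype.property _
    · exact ⟨fun _ => Classical.arbitrary V, fun h' => absurd h' h⟩
  choose ι hι using this
  exact ⟨ι, hι⟩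

lemma Ex_small_le {p μ : ℝ} (h0 : 0 ≤ p) (h1 : p < 1) (hk : 0 < k) (hμ : 0 < μ)
    (hμ' : k * μ ≤ (Fintype.card V).choose k * (k : ℝ) ^ (k - 1) *
      (p ^ (k - 1) * (1 - p) ^ (k * Fintype.card V))) :
    Ex p (fun ω : Sym2 V → Bool => ind (∀ v, (comp ω v).card < k)) ≤
      1 / μ + (1 / (1 - p) ^ (k * k) - 1) := by
  have hk' : (0 : ℝ) < k := by exact_mod_cast hk
  have q0 : 0 < 1 - p := by linarith
  have : Nonempty V := by
    by_contra h
    rw [not_nonempty_iff] at h
    rw [Fintype.card_eq_zero, Nat.choose_eq_zero_of_lt hk] at hμ'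
    have := mul_pos hk' hμ
    simp at hμ'
    linarith
  obtain ⟨ι, hι⟩ := exists_place V k
  obtain ⟨ρ, T, hT, hT'⟩ := exists_trees k hk
  set I := powersetCard k (univ : Finset V) ×ˢ T with hI
  have hmem : ∀ i ∈ I, i.1.card = k ∧ i.2 ∈ T := fun i hi => by
    simpa [hI] using hi
  have hsum : μ ≤ ∑ i ∈ I, Ex p (fun ω => ind (TreeEv i.1 (ι i.1) ρ i.2 ω)) := by
    have h2 : ∀ i ∈ I, p ^ (k - 1) * (1 - p) ^ (k * Fintype.card V) ≤
        Ex p (fun ω => ind (TreeEv i.1 (ι i.1) ρ i.2 ω)) := by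
      intro i hi
      unfold TreeEv
      rw [Ex_cyl' _ _ _ disjoint_sdiff]
      apply mul_le_mul _ _ (by positivity) (by positivity)
      · apply pow_le_pow_of_le_one h0 h1.le
        exact card_image_le.trans (by simp)
      · apply pow_le_pow_of_le_one q0.le (by linarith)
        refine (card_le_card sdiff_subset).trans ((card_touch_le _).trans ?_)
        rw [(hmem i hi).1]
    refine le_trans ?_ (card_nsmul_le_sum _ _ _ h2)
    rw [nsmul_eq_mul, hI, card_product, card_powersetCard, card_univ]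
    apply le_of_mul_le_mul_left _ hk'
    refine hμ'.trans ?_
    rw [← mul_assoc (k : ℝ)]
    apply mul_le_mul_of_nonneg_right _ (by positivity)
    have h3 : (k : ℝ) ^ (k - 1) ≤ k * T.card := by exact_mod_cast hT
    push_cast
    calc _ ≤ ((Fintype.card V).choose k : ℝ) * (k * T.card) :=
          mul_le_mul_of_nonneg_left h3 (by positivity)
      _ = _ := by ring
  have hmain := second_moment (β := 1 / (1 - p) ^ (k * k)) h0 h1.le (by positivity) I
    (fun i ω => TreeEv i.1 (ι i.1) ρ i.2 ω) (by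
      rintro ⟨S, f⟩ hi ⟨S', f'⟩ hj hne
      obtain ⟨hS, hf⟩ := hmem _ hi
      obtain ⟨hS', hf'⟩ := hmem _ hj
      dsimp only at hS hf hS' hf' ⊢
      by_cases hd : Disjoint S S'
      · have d1 := treeE_disjoint (hι S hS).2 ρ f hd
        have d2 := treeE_disjoint (hι S' hS').2 ρ f' hd.symm
        have e1 : (fun ω => ind (TreeEv S (ι S) ρ f ω ∧ TreeEv S' (ι S') ρ f' ω)) = fun ω =>
            ind ((∀ e ∈ treeE (ι S) ρ f ∪ treeE (ι S') ρ f', ω e = true) ∧
              ∀ e ∈ (touch S \ treeE (ι S) ρ f) ∪ (touch S' \ treeE (ι S') ρ f'), ω e = false) := by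
          ext ω
          congr 1
          simp only [TreeEv, forall_mem_union]
          exact propext and_and_and_comm
        rw [e1, Ex_cyl']
        · unfold TreeEv
          rw [Ex_cyl' _ _ _ disjoint_sdiff, Ex_cyl' _ _ _ disjoint_sdiff,
            card_union_of_disjoint (d1.mono_right (treeE_subset (hι S' hS').2 ρ f'))]
          have h2 := card_union_add_card_inter (touch S \ treeE (ι S) ρ f)
            (touch S' \ treeE (ι S') ρ f')
          have h3 : ((touch S \ treeE (ι S) ρ f) ∩ (touch S' \ treeE (ι S') ρ f')).card ≤ k * k := by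
            refine (card_le_card (inter_subset_inter sdiff_subset sdiff_subset)).trans ?_
            simpa [hS, hS'] using card_touch_inter hd
          rw [one_div, ← div_eq_inv_mul, le_div_iff₀ (by positivity), mul_mul_mul_comm, ← pow_add,
            ← pow_add, mul_assoc, ← pow_add]
          apply mul_le_mul_of_nonneg_left _ (by positivity)
          apply pow_le_pow_of_le_one q0.le (by linarith)
          omega
        · rw [disjoint_union_left, disjoint_union_right, disjoint_union_right]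
          exact ⟨⟨disjoint_sdiff, d1.mono_right sdiff_subset⟩, d2.mono_right sdiff_subset,
            disjoint_sdiff⟩
      · have e1 : (fun ω => ind (TreeEv S (ι S) ρ f ω ∧ TreeEv S' (ι S') ρ f' ω)) = fun _ => 0 := by
          ext ω
          apply ind_of_not
          rintro ⟨h2, h3⟩
          obtain ⟨a, ha, ha'⟩ := Finset.not_disjoint_iff.mp hd
          have e2 : S = S' :=
            (h2.comp_eq (hι S hS).1 (hι S hS).2 (hT' f hf).1 (hT' f hf).2 ha).symm.trans
              (h3.comp_eq (hι S' hS').1 (hι S' hS').2 (hT' f' hf').1 (hT' f' hf').2 ha')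
          subst e2
          apply hne
          congr 1
          apply tree_ext (hT' f hf).1 (hT' f hf).2 (((hT' f' hf').2 ρ).mpr rfl)
          intro x hx
          have h4 : s(ι S x, ι S (f x)) ∈ treeE (ι S) ρ f := mem_image.mpr ⟨x, by simp [hx], rfl⟩
          have h5 : s(ι S x, ι S (f x)) ∈ treeE (ι S) ρ f' := by
            by_contra h5
            have := h3.2 _ (Finset.mem_sdiff.mpr ⟨treeE_subset (hι S hS).2 ρ f h4, h5⟩)
            rw [h2.1 _ h4] at this
            exact absurd this (by simp)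
          obtain ⟨y, hy, hxy⟩ := mem_image.mp h5
          refine ⟨y, ne_of_mem_erase hy, ?_⟩
          rw [Sym2.eq_iff] at hxy ⊢
          simp only [(hι S hS).1.eq_iff] at hxy
          tauto
        rw [e1, Ex_const]
        exact mul_nonneg (by positivity) (mul_nonneg (Ex_nonneg h0 h1.le fun _ => ind_nonneg _)
          (Ex_nonneg h0 h1.le fun _ => ind_nonneg _))) (hμ.trans_le hsum)
  refine le_trans (Ex_mono h0 h1.le fun ω => ind_mono ?_) (hmain.trans ?_)
  · intro h i hi hev
    obtain ⟨hS, hf⟩ := hmem _ hi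
    have := hev.comp_eq (hι _ hS).1 (hι _ hS).2 (hT' _ hf).1 (hT' _ hf).2
      (((hι _ hS).2 _).mpr ⟨ρ, rfl⟩)
    have h2 := h (ι i.1 ρ)
    rw [this, hS] at h2
    exact lt_irrefl _ h2
  · exact add_le_add_left (one_div_le_one_div_of_le hμ hsum) _

end Pool.Agent.MP_7f4e92_pr

end MrgPart4

-- ======== part 5: formerly Pool.Agent.MP_7f4e92_pr.Term1b
section MrgPart5

set_option autoImplicit false

open Finset Filter
open scoped Classical Topology

namespace Pool.Agent.MP_7f4e92_pr

lemma factorial_le_aux (k : ℕ) (hk : 0 < k) :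
    (k.factorial : ℝ) ≤ Real.exp 1 * k * (k / Real.exp 1) ^ k := by
  obtain ⟨m, rfl⟩ := Nat.exists_eq_add_of_le' hk
  have h1 := Stirling.stirlingSeq'_antitone (Nat.zero_le m)
  simp only [Function.comp_apply, Nat.succ_eq_add_one, zero_add, Stirling.stirlingSeq_one] at h1
  unfold Stirling.stirlingSeq at h1
  have h2 : (0 : ℝ) < ((m + 1 : ℕ) : ℝ) := by positivity
  rw [div_le_iff₀ (by positivity)] at h1
  refine h1.trans ?_
  rw [← mul_assoc]
  apply mul_le_mul_of_nonneg_right _ (by positivity)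
  rw [Real.sqrt_mul (by norm_num), ← mul_assoc, div_mul_cancel₀ _ (by positivity)]
  apply mul_le_mul_of_nonneg_left _ (by positivity)
  rw [Real.sqrt_le_left (by positivity)]
  have : (1 : ℝ) ≤ ((m + 1 : ℕ) : ℝ) := by exact_mod_cast hk
  nlinarith

lemma tendsto_ceil_cube {K : ℝ} (hK : 0 < K) :
    Tendsto (fun n : ℕ => (⌈K * Real.log n⌉₊ : ℝ) ^ 3 / √n) atTop (𝓝 0) := by
  have h1 := ((isLittleO_log_rpow_atTop (r := 1 / 6) (by norm_num)).tendsto_div_nhds_zero).comp
    tendsto_natCast_atTop_atTop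
  have h2 := ((tendsto_rpow_atTop (y := 1 / 6) (by norm_num)).comp
    tendsto_natCast_atTop_atTop).inv_tendsto_atTop
  have h3 := ((h1.const_mul K).add h2).pow 3
  simp only [mul_zero, add_zero, ne_eq, OfNat.ofNat_ne_zero, not_false_eq_true, zero_pow] at h3
  refine squeeze_zero' (Eventually.of_forall fun n => by positivity) ?_ h3
  filter_upwards [eventually_gt_atTop 0] with n hn
  have hn' : (0 : ℝ) < n := by exact_mod_cast hn
  have h4 : √(n : ℝ) = ((n : ℝ) ^ (1 / 6 : ℝ)) ^ 3 := by
    rw [Real.sqrt_eq_rpow, ← Real.rpow_natCast, ← Real.rpow_mul hn'.le]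
    norm_num
  rw [h4, ← div_pow]
  apply pow_le_pow_left₀ (by positivity)
  simp only [Function.comp_apply, Pi.inv_apply]
  rw [← mul_div_assoc, ← one_div, ← add_div]
  apply div_le_div_of_nonneg_right _ (by positivity)
  exact (Nat.ceil_lt_add_one (mul_nonneg hK.le (Real.log_natCast_nonneg n))).le

lemma term1 {p : ℕ → ℝ} (h0 : ∀ n, 0 ≤ p n) (h1 : ∀ n, p n ≤ 1)
    (hp : Tendsto (fun n : ℕ => n * p n) atTop (𝓝 1)) {K : ℝ} (hK : 0 < K) :
    Tendsto (fun n : ℕ => Ex (p n) fun ω : Sym2 (Fin n) → Bool =>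
      ind (∀ v, (comp ω v).card < K * Real.log n)) atTop (𝓝 0) := by
  set k : ℕ → ℕ := fun n => ⌈K * Real.log n⌉₊ with hk
  have l1 : Tendsto (fun n : ℕ => (k n : ℝ) ^ 3 / √n) atTop (𝓝 0) := tendsto_ceil_cube hK
  have hkpos : ∀ᶠ n : ℕ in atTop, 0 < k n := by
    filter_upwards [eventually_gt_atTop 1] with n hn
    exact Nat.ceil_pos.mpr (mul_pos hK (Real.log_pos (by exact_mod_cast hn)))
  have hp2 : ∀ᶠ n : ℕ in atTop, n * p n < 2 := hp.eventually (gt_mem_nhds one_lt_two)
  have l2 : Tendsto (fun n : ℕ => ((k n * k n : ℕ) : ℝ) * p n) atTop (𝓝 0) := by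
    have := l1.const_mul 2
    rw [mul_zero] at this
    refine squeeze_zero' (Eventually.of_forall fun n => mul_nonneg (by positivity) (h0 n)) ?_ this
    filter_upwards [hkpos, hp2, eventually_gt_atTop 0] with n hk1 hp2 hn
    have hn' : (1 : ℝ) ≤ n := by exact_mod_cast hn
    have hk' : (1 : ℝ) ≤ k n := by exact_mod_cast hk1
    have h2 : √(n : ℝ) ≤ n := by
      rw [Real.sqrt_le_left (by positivity)]; nlinarith
    rw [← mul_div_assoc, le_div_iff₀ (by positivity)]
    push_cast
    have h3 : p n * √n ≤ 2 := by nlinarith [h0 n]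
    have h4 : (k n : ℝ) * k n ≤ (k n : ℝ) ^ 3 := by nlinarith [mul_pos (zero_lt_one.trans_le hk') (zero_lt_one.trans_le hk')]
    calc _ = (p n * √n) * (k n * k n) := by ring
      _ ≤ _ := mul_le_mul h3 h4 (by positivity) (by norm_num)
  have l3 : Tendsto (fun n : ℕ => (k n : ℝ) * p n) atTop (𝓝 0) := by
    refine squeeze_zero (fun n => mul_nonneg (by positivity) (h0 n)) (fun n => ?_) l2
    apply mul_le_mul_of_nonneg_right _ (h0 n)
    exact_mod_cast Nat.le_mul_self _
  have l4 : Tendsto (fun n : ℕ => (1 - p n) ^ (k n * k n)) atTop (𝓝 1) := by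
    have := l2.const_sub 1
    rw [sub_zero] at this
    refine tendsto_of_tendsto_of_tendsto_of_le_of_le this tendsto_const_nhds (fun n => ?_)
      fun n => pow_le_one₀ (by linarith [h1 n]) (by linarith [h0 n])
    have := one_add_mul_le_pow (a := -p n) (by linarith [h1 n]) (k n * k n)
    simpa only [mul_neg, sub_eq_add_neg] using this
  set γ := 1 / (2 * K) with hγ
  have hγ0 : 0 < γ := by positivity
  have l5 : Tendsto (fun n : ℕ => (n * p n - k n * p n) * Real.exp 1 * (1 - p n) ^ n) atTop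
      (𝓝 ((1 - 0) * Real.exp 1 * Real.exp (-1))) :=
    ((hp.sub l3).mul_const _).mul (tendsto_one_sub_pow hp)
  have e5 := l5.eventually (lt_mem_nhds (show Real.exp (-γ) < _ by
    rw [sub_zero, one_mul, ← Real.exp_add]
    exact Real.exp_lt_exp.mpr (by linarith)))
  set c := Real.exp (-γ) / (2 * Real.exp 1) with hc
  have hc0 : 0 < c := by positivity
  have l6 := (l1.const_mul (1 / c)).add (((tendsto_const_nhds (x := (1 : ℝ))).div l4
    one_ne_zero).sub_const 1)
  simp only [mul_zero, div_one, sub_self, add_zero] at l6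
  refine squeeze_zero' (Eventually.of_forall fun n =>
    Ex_nonneg (h0 n) (h1 n) fun _ => ind_nonneg _) ?_ l6
  filter_upwards [hkpos, hp2, e5, eventually_gt_atTop 0, hp.eventually (lt_mem_nhds one_pos),
    (tendsto_p_zero hp).eventually (gt_mem_nhds one_pos)] with n hk1 hp2 e5 hn hp0 hp1
  have hn' : (0 : ℝ) < n := by exact_mod_cast hn
  have hk' : (0 : ℝ) < k n := by exact_mod_cast hk1
  have hp0' : 0 < p n := (mul_pos_iff_of_pos_left hn').mp hp0
  have q0 : 0 < 1 - p n := by linarith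
  have := Ex_small_le (V := Fin n) (k := k n) (μ := c * √n / (k n : ℝ) ^ 3) (h0 n) hp1 hk1
    (by positivity) (by
      rw [Fintype.card_fin]
      have a1 : Real.exp (-γ) / √n ≤ Real.exp (-γ) ^ k n := by
        rw [← Real.exp_nat_mul, Real.sqrt_eq_rpow, Real.rpow_def_of_pos hn', ← Real.exp_sub]
        apply Real.exp_le_exp.mpr
        have := (Nat.ceil_lt_add_one (mul_nonneg hK.le (Real.log_natCast_nonneg n))).le
        have h2 : γ * (K * Real.log n) = Real.log n * (1 / 2) := by
          rw [hγ]; field_simp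
        have h3 := mul_le_mul_of_nonneg_left this hγ0.le
        change _ ≤ (⌈K * Real.log n⌉₊ : ℝ) * -γ
        nlinarith
      have a2 : Real.exp (-γ) ^ k n ≤
          (((n + 1 - k n : ℕ) : ℝ) * p n * Real.exp 1 * (1 - p n) ^ n) ^ k n := by
        apply pow_le_pow_left₀ (by positivity) (e5.le.trans _)
        apply mul_le_mul_of_nonneg_right _ (by positivity)
        apply mul_le_mul_of_nonneg_right _ (by positivity)
        rw [← sub_mul]
        apply mul_le_mul_of_nonneg_right _ (h0 n)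
        have : n ≤ (n + 1 - k n) + k n := by omega
        have : (n : ℝ) ≤ ((n + 1 - k n : ℕ) : ℝ) + k n := by exact_mod_cast this
        linarith
      have a3 := Nat.pow_le_choose (α := ℝ) (k n) n
      have a4 := factorial_le_aux (k n) hk1
      have a5 : (((n + 1 - k n : ℕ) : ℝ) ^ k n) / (Real.exp 1 * k n * (k n / Real.exp 1) ^ k n) ≤
          n.choose (k n) :=
        le_trans (div_le_div_of_nonneg_left (by positivity) (by positivity) a4) a3
      obtain ⟨m, hm⟩ := Nat.exists_eq_add_of_le' hk1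
      have a6 : (((n + 1 - k n : ℕ) : ℝ) * p n * Real.exp 1 * (1 - p n) ^ n) ^ k n /
          (Real.exp 1 * k n ^ 2 * p n) =
          (((n + 1 - k n : ℕ) : ℝ) ^ k n) / (Real.exp 1 * k n * (k n / Real.exp 1) ^ k n) *
            (k n : ℝ) ^ (k n - 1) * (p n ^ (k n - 1) * (1 - p n) ^ (k n * n)) := by
        rw [mul_pow, mul_pow, mul_pow, div_pow, ← pow_mul, mul_comm n (k n)]
        generalize ((n + 1 - k n : ℕ) : ℝ) ^ k n = A
        generalize (1 - p n) ^ (k n * n) = B
        generalize (k n : ℝ) = x at hk'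
        rw [hm, Nat.add_sub_cancel, pow_succ x m, pow_succ (p n) m]
        field_simp
      refine le_trans ?_ (mul_le_mul_of_nonneg_right
        (mul_le_mul_of_nonneg_right a5 (by positivity)) (by positivity))
      rw [← a6]
      refine le_trans ?_ (div_le_div_of_nonneg_right (a1.trans a2) (by positivity))
      rw [hc, le_div_iff₀ (by positivity), le_div_iff₀ (by positivity)]
      have a7 : √(n : ℝ) * √n = n := Real.mul_self_sqrt hn'.le
      calc _ = Real.exp (-γ) * ((√(n : ℝ) * √n) * p n / 2) := by field_simp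
        _ ≤ Real.exp (-γ) * 1 := by
            apply mul_le_mul_of_nonneg_left _ (by positivity)
            rw [a7]; linarith
        _ = _ := mul_one _)
  refine le_trans (Ex_mono (h0 n) (h1 n) fun ω => ind_mono fun h v => ?_) (this.trans (le_of_eq ?_))
  · exact Nat.lt_ceil.mpr (h v)
  · simp only [Pi.div_apply]
    congr 1
    field_simp

end Pool.Agent.MP_7f4e92_pr

end MrgPart5

-- ======== part 6: formerly Pool.Agent.MP_7f4e92_pr.Term3
section MrgPart6

set_option autoImplicit false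

open Finset Filter
open scoped Classical Topology

namespace Pool.Agent.MP_7f4e92_pr

variable {V : Type} [Fintype V] {k : ℕ}

/-- The pairs of a mapping placed by `ι`. -/
noncomputable def mapE (ι : Fin k → V) (f : Fin k → Fin k) : Finset (Sym2 V) :=
  (univ.filter fun x => f x ≠ x).image fun x => s(ι x, ι (f x))

/-- The pairs inside the range of `ι`. -/
noncomputable def inE (ι : Fin k → V) : Finset (Sym2 V) :=
  (univ : Finset (Fin k × Fin k)).image fun q => s(ι q.1, ι q.2)

/-- The pairs leaving `S`. -/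
noncomputable def outE (S : Finset V) (ι : Fin k → V) : Finset (Sym2 V) :=
  ((univ : Finset (Fin k)) ×ˢ Sᶜ).image fun q => s(ι q.1, q.2)

lemma Ex_badcomp_le {p τ m t t' : ℝ} {L : ℕ} (h0 : 0 ≤ p) (h1 : p ≤ 1) (hτ : 0 ≤ τ) (hL : 0 < L)
    (ht : t' + 2 * m * L ≤ t) (S : Finset V) (ι : Fin k → V) (hι : Function.Injective ι)
    (hS : ∀ a, a ∈ S ↔ ∃ x, ι x = a) (hSk : S.card = k) (stat : SimpleGraph (Fin k) → ℕ)
    (hstat : ∀ H H' : SimpleGraph (Fin k), H ≤ H' → ∀ Z : Set (Fin k),
      (∀ a b, H'.Adj a b → ¬ H.Adj a b → a ∈ Z) → stat H ≤ stat H' + Z.ncard * L) :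
    Ex p (fun ω : Sym2 V → Bool =>
      ind ((∃ a ∈ S, comp ω a = S) ∧ (stat ((gr ω).comap ι) : ℝ) < t')) ≤
      p ^ (k - 1) * (1 - p) ^ (k * (Fintype.card V - k)) *
        ((univ.filter fun f : Fin k → Fin k => (stat (mapGraph f) : ℝ) < t).card +
          (k : ℝ) ^ k * (Real.exp (-(τ * m)) * (1 - p + p * Real.exp τ) ^ (k * k))) := by
  have hθ : 1 ≤ Real.exp τ := Real.one_le_exp hτ
  have q0 : 0 ≤ 1 - p := by linarith
  have hsub : ∀ f, mapE ι f ⊆ inE ι := by
    intro f e he
    obtain ⟨x, -, rfl⟩ := mem_image.mp he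
    exact mem_image.mpr ⟨(x, f x), mem_univ _, rfl⟩
  have hdis : Disjoint (inE ι) (outE S ι) := by
    rw [Finset.disjoint_left]
    intro e he he'
    obtain ⟨⟨x, y⟩, -, rfl⟩ := mem_image.mp he
    obtain ⟨⟨x', y'⟩, h2, h3⟩ := mem_image.mp he'
    simp only [mem_product, mem_univ, Finset.mem_compl, true_and] at h2
    rcases Sym2.eq_iff.mp h3 with h4 | h4
    · exact h2 ((hS _).mpr ⟨_, h4.2.symm⟩)
    · exact h2 ((hS _).mpr ⟨_, h4.2.symm⟩)
  have hout : (outE S ι).card = k * (Fintype.card V - k) := by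
    rw [outE, card_image_of_injOn, card_product, card_univ, Fintype.card_fin, card_compl, hSk]
    rintro ⟨x, y⟩ h2 ⟨x', y'⟩ h3 h4
    simp only [coe_product, coe_univ, coe_compl, Set.mem_prod, Set.mem_univ, Set.mem_compl_iff,
      mem_coe, true_and] at h2 h3
    rcases Sym2.eq_iff.mp h4 with h5 | h5
    · exact Prod.ext (hι h5.1) h5.2
    · exact absurd ((hS _).mpr ⟨_, h5.1⟩) h3
  set T := univ.filter fun f : Fin k → Fin k => k - 1 ≤ (mapE ι f).card with hT
  have hpt : ∀ ω : Sym2 V → Bool,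
      ind ((∃ a ∈ S, comp ω a = S) ∧ (stat ((gr ω).comap ι) : ℝ) < t') ≤
      ∑ f ∈ T, (ind ((stat (mapGraph f) : ℝ) < t) *
        ind ((∀ e ∈ mapE ι f, ω e = true) ∧ ∀ e ∈ outE S ι, ω e = false) +
        Real.exp (-(τ * m)) * (ind ((∀ e ∈ mapE ι f, ω e = true) ∧ ∀ e ∈ outE S ι, ω e = false) *
          Real.exp τ ^ ((inE ι \ mapE ι f).filter fun e => ω e = true).card)) := by
    intro ω
    have hnn : ∀ f ∈ T, 0 ≤ (ind ((stat (mapGraph f) : ℝ) < t) *
        ind ((∀ e ∈ mapE ι f, ω e = true) ∧ ∀ e ∈ outE S ι, ω e = false) +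
        Real.exp (-(τ * m)) * (ind ((∀ e ∈ mapE ι f, ω e = true) ∧ ∀ e ∈ outE S ι, ω e = false) *
          Real.exp τ ^ ((inE ι \ mapE ι f).filter fun e => ω e = true).card)) := fun f _ =>
      add_nonneg (mul_nonneg (ind_nonneg _) (ind_nonneg _))
        (mul_nonneg (by positivity) (mul_nonneg (ind_nonneg _) (by positivity)))
    by_cases h : (∃ a ∈ S, comp ω a = S) ∧ (stat ((gr ω).comap ι) : ℝ) < t'
    swap
    · rw [ind_of_not h]
      exact sum_nonneg hnn
    rw [ind_of h]
    obtain ⟨⟨a, ha, hc⟩, hlt⟩ := h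
    obtain ⟨ρ, rfl⟩ := (hS a).mp ha
    obtain ⟨g, hg0, hg⟩ := exists_parent (gr ω) (ι ρ)
    have hr : ∀ x, (gr ω).Reachable (ι ρ) (ι x) := fun x =>
      mem_comp.mp (hc.symm ▸ (hS _).mpr ⟨x, rfl⟩)
    have hex : ∀ x, ∃ y, ι y = g (ι x) := by
      intro x
      by_cases hx : x = ρ
      · exact ⟨ρ, by rw [hx, hg0]⟩
      · apply (hS _).mp
        rw [← hc, mem_comp]
        exact (hr x).trans (hg _ (hr x) (hι.ne hx)).1.reachable
    choose f hf using hex
    have hfρ : f ρ = ρ := hι (by rw [hf, hg0])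
    have hadj : ∀ x, x ≠ ρ → (gr ω).Adj (ι x) (ι (f x)) := fun x hx => by
      rw [hf]; exact (hg _ (hr x) (hι.ne hx)).1
    have hadj' : ∀ x, f x ≠ x → (gr ω).Adj (ι x) (ι (f x)) := fun x hx =>
      hadj x fun h => hx (by rw [h, hfρ])
    have hfT : f ∈ T := by
      simp only [hT, mem_filter, mem_univ, true_and]
      have : (univ.erase ρ).card ≤ (mapE ι f).card := by
        apply card_le_card_of_injOn (fun x => s(ι x, ι (f x)))
        · intro x hx
          have hx' : x ≠ ρ := by simpa using hx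
          refine mem_coe.mpr (mem_image.mpr ⟨x, ?_, rfl⟩)
          simp only [mem_filter, mem_univ, true_and]
          exact fun h => (hadj x hx').ne (by rw [h])
        · intro x hx y hy hxy
          have hx' : x ≠ ρ := by simpa using hx
          have hy' : y ≠ ρ := by simpa using hy
          simp only [hf] at hxy
          exact hι (injOn_edges g (fun w => (gr ω).dist w (ι ρ))
            {w | (gr ω).Reachable (ι ρ) w ∧ w ≠ ι ρ} (fun w hw => (hg w hw.1 hw.2).2)
            ⟨hr x, hι.ne hx'⟩ ⟨hr y, hι.ne hy'⟩ hxy)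
      simpa using this
    refine le_trans ?_ (single_le_sum hnn hfT)
    have hev : (∀ e ∈ mapE ι f, ω e = true) ∧ ∀ e ∈ outE S ι, ω e = false := by
      constructor
      · intro e he
        obtain ⟨x, hx, rfl⟩ := mem_image.mp he
        exact ((gr_adj _ _ _).mp (hadj' x (mem_filter.mp hx).2)).1
      · intro e he
        obtain ⟨⟨x, y⟩, h2, rfl⟩ := mem_image.mp he
        simp only [mem_product, mem_univ, Finset.mem_compl, true_and] at h2
        by_contra h3
        apply h2
        rw [← hc, mem_comp]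
        refine (hr x).trans (SimpleGraph.Adj.reachable ((gr_adj _ _ _).mpr ⟨by simpa using h3, ?_⟩))
        exact fun h => h2 ((hS _).mpr ⟨x, h⟩)
    rw [ind_of hev, mul_one, one_mul]
    by_cases hb : (stat (mapGraph f) : ℝ) < t
    · rw [ind_of hb]
      exact le_add_of_nonneg_right (by positivity)
    rw [ind_of_not hb, zero_add, ← Real.exp_nat_mul, ← Real.exp_add]
    apply Real.one_le_exp
    set M := (inE ι \ mapE ι f).filter fun e => ω e = true with hM
    have hZ : (M.biUnion fun e => univ.filter fun x => ι x ∈ e).card ≤ M.card * 2 := by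
      apply card_biUnion_le_card_mul
      intro e _
      induction e using Sym2.ind with
      | _ b c =>
        refine le_trans (card_le_card_of_injOn ι (t := {b, c}) ?_ hι.injOn) card_le_two
        intro x hx
        simpa using hx
    have h2 := hstat (mapGraph f) ((gr ω).comap ι) (by
      intro x y hxy
      rw [mapGraph_adj] at hxy
      rcases hxy.2 with rfl | rfl
      · exact hadj' x hxy.1.symm
      · exact (hadj' y hxy.1).symm) (M.biUnion fun e => univ.filter fun x => ι x ∈ e : Finset _) (by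
      intro x y hxy hn
      simp only [coe_biUnion, mem_coe, Set.mem_iUnion, mem_filter, mem_univ, true_and]
      refine ⟨s(ι x, ι y), mem_filter.mpr ⟨Finset.mem_sdiff.mpr ⟨mem_image.mpr ⟨(x, y),
        mem_univ _, rfl⟩, fun h => hn ?_⟩, ((gr_adj _ _ _).mp hxy).1⟩, Sym2.mem_mk_left _ _⟩
      obtain ⟨z, hz, hz'⟩ := mem_image.mp h
      rw [mapGraph_adj]
      refine ⟨hxy.ne, ?_⟩
      rcases Sym2.eq_iff.mp hz' with h3 | h3
      · exact Or.inl (by rw [← hι h3.1, hι h3.2])
      · exact Or.inr (by rw [← hι h3.1, hι h3.2]))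
    rw [Set.ncard_coe_finset] at h2
    have h3 : (stat (mapGraph f) : ℝ) ≤ stat ((gr ω).comap ι) + M.card * 2 * L := by
      exact_mod_cast h2.trans (Nat.add_le_add_left (Nat.mul_le_mul_right _ hZ) _)
    have hL' : (0 : ℝ) < L := by exact_mod_cast hL
    have h4 : m ≤ M.card := by
      apply le_of_mul_le_mul_right _ hL'
      linarith
    nlinarith
  refine (Ex_mono h0 h1 hpt).trans ?_
  rw [Ex_sum]
  have h2 : ∀ f ∈ T, Ex p (fun ω : Sym2 V → Bool => ind ((stat (mapGraph f) : ℝ) < t) *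
        ind ((∀ e ∈ mapE ι f, ω e = true) ∧ ∀ e ∈ outE S ι, ω e = false) +
        Real.exp (-(τ * m)) * (ind ((∀ e ∈ mapE ι f, ω e = true) ∧ ∀ e ∈ outE S ι, ω e = false) *
          Real.exp τ ^ ((inE ι \ mapE ι f).filter fun e => ω e = true).card)) ≤
      p ^ (k - 1) * (1 - p) ^ (k * (Fintype.card V - k)) * (ind ((stat (mapGraph f) : ℝ) < t) +
        Real.exp (-(τ * m)) * (1 - p + p * Real.exp τ) ^ (k * k)) := by
    intro f hf
    rw [Ex_add, Ex_mul, Ex_mul, Ex_cyl' _ _ _ (hdis.mono_left (hsub f)),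
      Ex_cyl _ _ _ _ _ (hdis.mono_left (hsub f)) disjoint_sdiff
        (hdis.symm.mono_right sdiff_subset), hout]
    have a1 : p ^ (mapE ι f).card ≤ p ^ (k - 1) :=
      pow_le_pow_of_le_one h0 h1 (mem_filter.mp hf).2
    have a2 : (1 - p + p * Real.exp τ) ^ (inE ι \ mapE ι f).card ≤
        (1 - p + p * Real.exp τ) ^ (k * k) := by
      apply pow_le_pow_right₀ (by nlinarith)
      refine (card_le_card sdiff_subset).trans (card_image_le.trans ?_)
      simp
    have a3 := ind_nonneg ((stat (mapGraph f) : ℝ) < t)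
    have a4 : 0 ≤ 1 - p + p * Real.exp τ := by positivity
    calc _ = p ^ (mapE ι f).card * (1 - p) ^ (k * (Fintype.card V - k)) *
          (ind ((stat (mapGraph f) : ℝ) < t) +
            Real.exp (-(τ * m)) * (1 - p + p * Real.exp τ) ^ (inE ι \ mapE ι f).card) := by ring
      _ ≤ _ := by gcongr
  refine (sum_le_sum h2).trans ?_
  rw [← mul_sum]
  apply mul_le_mul_of_nonneg_left _ (by positivity)
  have a4 : 0 ≤ 1 - p + p * Real.exp τ := by positivity
  refine (sum_le_sum_of_subset_of_nonneg (subset_univ T) fun f _ _ =>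
    add_nonneg (ind_nonneg _) (by positivity)).trans (le_of_eq ?_)
  rw [sum_add_distrib, sum_const, nsmul_eq_mul, card_univ]
  simp [ind]

lemma weight_le {n k : ℕ} {p δ : ℝ} (h0 : 0 ≤ p) (h1 : p ≤ 1) (hk : 0 < k) (hkn : k ≤ n)
    (hlo : 1 / 2 ≤ n * p) (hhi : n * p ≤ 2) (hδ : k ≤ δ * n) :
    n.choose k * (p ^ (k - 1) * (1 - p) ^ (k * (n - k)) * (k : ℝ) ^ k) ≤
      2 * n * Real.exp (2 * δ * k) := by
  have hn : (0 : ℝ) < n := by exact_mod_cast hk.trans_le hkn
  have hp : 0 < p := by
    rcases h0.lt_or_eq with h | h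
    · exact h
    · rw [← h] at hlo; norm_num at hlo
  have q0 : 0 ≤ 1 - p := by linarith
  have a1 := Nat.choose_le_pow_div (α := ℝ) k n
  have a2 := Real.pow_div_factorial_le_exp (k : ℝ) (Nat.cast_nonneg k) k
  have a3 : (1 - p) ^ (k * (n - k)) ≤ Real.exp (-p * (k * (n - k))) := by
    refine (pow_le_pow_left₀ q0 (Real.one_sub_le_exp_neg p) _).trans (le_of_eq ?_)
    rw [← Real.exp_nat_mul, Nat.cast_mul, Nat.cast_sub hkn, mul_comm]
  have a4 : (n * p) ^ k ≤ Real.exp ((n * p - 1) * k) := by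
    rw [mul_comm _ (k : ℝ), Real.exp_nat_mul]
    apply pow_le_pow_left₀ (by positivity)
    linarith [Real.add_one_le_exp (n * p - 1)]
  obtain ⟨m, rfl⟩ := Nat.exists_eq_add_of_le' hk
  have a5 : 1 / p ≤ 2 * n := by
    rw [div_le_iff₀ hp]; linarith
  have a6 : p * ((m + 1 : ℕ) * (m + 1 : ℕ)) ≤ 2 * δ * (m + 1 : ℕ) := by
    rw [← mul_assoc]
    apply mul_le_mul_of_nonneg_right _ (by positivity)
    have hδ0 : 0 ≤ δ := by
      by_contra h
      have : δ * n < 0 := mul_neg_of_neg_of_pos (not_le.mp h) hn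
      have : (0 : ℝ) ≤ (m + 1 : ℕ) := Nat.cast_nonneg _
      linarith
    nlinarith
  calc _ ≤ (n : ℝ) ^ (m + 1) / (m + 1).factorial *
        (p ^ (m + 1 - 1) * Real.exp (-p * ((m + 1 : ℕ) * (n - (m + 1 : ℕ)))) *
          ((m + 1 : ℕ) : ℝ) ^ (m + 1)) := by gcongr
    _ = 1 / p * ((n * p) ^ (m + 1) * (((m + 1 : ℕ) : ℝ) ^ (m + 1) / (m + 1).factorial) *
          Real.exp (-p * ((m + 1 : ℕ) * (n - (m + 1 : ℕ))))) := by
        rw [Nat.add_sub_cancel, mul_pow, pow_succ p m]
        field_simp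
    _ ≤ 2 * n * (Real.exp ((n * p - 1) * (m + 1 : ℕ)) * Real.exp (m + 1 : ℕ) *
          Real.exp (-p * ((m + 1 : ℕ) * (n - (m + 1 : ℕ))))) := by gcongr
    _ ≤ _ := by
        rw [← Real.exp_add, ← Real.exp_add]
        gcongr
        linarith

end Pool.Agent.MP_7f4e92_pr

end MrgPart6

-- ======== part 7: formerly Pool.Agent.MP_7f4e92_pr.Term3b
section MrgPart7

set_option autoImplicit false

open Finset Filter
open scoped Classical Topology

namespace Pool.Agent.MP_7f4e92_pr

lemma cnt_comap_le {V W : Type} [Fintype V] {k : ℕ} (s : Prop) (r D : ℕ) (F : SimpleGraph W) (u : W)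
    (G : SimpleGraph V) (S : Finset V) (ι : Fin k → V) (hι : Function.Injective ι)
    (hS : ∀ a, a ∈ S ↔ ∃ x, ι x = a) :
    cnt s r D F u (G.comap ι) ≤
      {v : (S : Set V) | BallIso (G.induce (S : Set V)) v r F u ↔ s}.ncard := by
  set π : Fin k → (S : Set V) := fun x => ⟨ι x, (hS _).mpr ⟨x, rfl⟩⟩ with hπ
  have hinj : Function.Injective π := fun x y h => hι (congrArg Subtype.val h)
  apply Set.ncard_le_ncard_of_injOn π _ hinj.injOn
  intro x hx
  have : LocIso (G.comap ι) x (G.induce (S : Set V)) π r := by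
    refine ⟨hinj.injOn, fun a _ y => ⟨fun h => ?_, ?_⟩⟩
    · obtain ⟨b, hb⟩ := (hS y).mp y.2
      have : π b = y := Subtype.ext hb
      subst this
      exact ⟨b, h, rfl⟩
    · rintro ⟨b, hb, rfl⟩
      exact hb
  exact (this.ballIso_iff F u).trans hx.1

lemma term3 {W : Type} (s : Prop) (r : ℕ) (F : SimpleGraph W) (u : W) {ε a : ℝ} (hε : 0 < ε)
    (hε1 : ε ≤ 1) (ha : a ≤ offspringLaw.real {ξ | BallIso (rayTree ξ) (0, []) r F u ↔ s}) :
    ∃ K > (0 : ℝ), ∃ δ > (0 : ℝ), ∀ p : ℕ → ℝ, (∀ n, 0 ≤ p n) → (∀ n, p n ≤ 1) →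
      Tendsto (fun n : ℕ => n * p n) atTop (𝓝 1) →
      Tendsto (fun n : ℕ => Ex (p n) fun ω : Sym2 (Fin n) → Bool =>
        ind (∃ S : Finset (Fin n), K * Real.log n ≤ S.card ∧ S.card ≤ δ * n ∧
          (∃ b ∈ S, comp ω b = S) ∧
          ({v : (S : Set (Fin n)) | BallIso ((gr ω).induce (S : Set (Fin n))) v r F u ↔ s}.ncard : ℝ)
            < (a - 2 * ε) * S.card)) atTop (𝓝 0) := by
  obtain ⟨D, hD⟩ := (map_bad s r F u hε hε1 ha).exists
  obtain ⟨k₀, hk₀⟩ := eventually_atTop.mp hD
  set L : ℕ := (D + 1) ^ r with hL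
  have hL0 : 0 < L := by positivity
  have hL' : (0 : ℝ) < L := by exact_mod_cast hL0
  set c : ℝ := min ((ε / 2) ^ 2 / (4 * (4 * ((D : ℝ) + 1) ^ r) ^ 2)) 2 with hc
  have hc0 : 0 < c := by positivity
  set η : ℝ := ε / (2 * L) with hη
  have hη0 : 0 < η := by positivity
  set δ : ℝ := min (c / 4) (1 / (2 * Real.exp (3 / η))) with hδ
  have hδ0 : 0 < δ := by positivity
  refine ⟨6 / c, by positivity, δ, hδ0, fun p h0 h1 hp => ?_⟩
  have l1 := (tendsto_inv_atTop_nhds_zero_nat (𝕜 := ℝ)).const_mul 8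
  rw [mul_zero] at l1
  refine squeeze_zero' (Eventually.of_forall fun n =>
    Ex_nonneg (h0 n) (h1 n) fun _ => ind_nonneg _) ?_ l1
  have l2 : Tendsto (fun n : ℕ => 6 / c * Real.log n) atTop atTop :=
    (Real.tendsto_log_atTop.comp tendsto_natCast_atTop_atTop).const_mul_atTop (by positivity)
  filter_upwards [hp.eventually (gt_mem_nhds one_lt_two),
    hp.eventually (lt_mem_nhds (show (1 : ℝ) / 2 < 1 by norm_num)), eventually_gt_atTop 0,
    l2.eventually (eventually_gt_atTop (k₀ : ℝ))] with n hhi hlo hn hk0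
  have hn' : (0 : ℝ) < n := by exact_mod_cast hn
  have : Nonempty (Fin n) := ⟨⟨0, hn⟩⟩
  set P : Finset (Fin n) → (Sym2 (Fin n) → Bool) → Prop := fun S ω =>
    6 / c * Real.log n ≤ S.card ∧ S.card ≤ δ * n ∧ (∃ b ∈ S, comp ω b = S) ∧
      ({v : (S : Set (Fin n)) | BallIso ((gr ω).induce (S : Set (Fin n))) v r F u ↔ s}.ncard : ℝ)
        < (a - 2 * ε) * S.card with hP
  have h2 : ∀ ω, ind (∃ S, P S ω) ≤
      ∑ k ∈ range (n + 1), ∑ S ∈ powersetCard k univ, ind (P S ω) := by
    intro ω
    by_cases h : ∃ S, P S ω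
    · rw [ind_of h]
      obtain ⟨S, hS⟩ := h
      refine le_trans ?_ (single_le_sum (f := fun k => ∑ S ∈ powersetCard k univ, ind (P S ω))
        (fun _ _ => sum_nonneg fun _ _ => ind_nonneg _) (a := S.card)
        (mem_range.mpr (Nat.lt_succ_of_le (by simpa using card_le_univ S))))
      refine le_trans ?_ (single_le_sum (f := fun S => ind (P S ω)) (fun _ _ => ind_nonneg _)
        (a := S) (by simp))
      rw [ind_of hS]
    · rw [ind_of_not h]
      exact sum_nonneg fun _ _ => sum_nonneg fun _ _ => ind_nonneg _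
  refine (Ex_mono (h0 n) (h1 n) h2).trans ?_
  rw [Ex_sum]
  have h3 : ∀ k ∈ range (n + 1), Ex (p n) (fun ω => ∑ S ∈ powersetCard k univ, ind (P S ω)) ≤
      4 * n * ((n : ℝ) ^ 3)⁻¹ := by
    intro k hk
    rw [Ex_sum]
    by_cases hk' : 6 / c * Real.log n ≤ k ∧ k ≤ δ * n
    swap
    · rw [sum_eq_zero]
      · positivity
      · intro S hS
        have : (fun ω => ind (P S ω)) = fun _ => 0 := by
          ext ω
          apply ind_of_not
          intro h
          rw [← (mem_powersetCard.mp hS).2] at hk'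
          exact hk' ⟨h.1, h.2.1⟩
        rw [this, Ex_const]
    have hkk : k₀ < k := by exact_mod_cast hk0.trans_le hk'.1
    obtain ⟨ι, hι⟩ := exists_place (Fin n) k
    have q0 : 0 ≤ 1 - p n := by linarith [h1 n]
    have h4 : ∀ S ∈ powersetCard k (univ : Finset (Fin n)), Ex (p n) (fun ω => ind (P S ω)) ≤
        p n ^ (k - 1) * (1 - p n) ^ (k * (n - k)) * (k : ℝ) ^ k * (2 * Real.exp (-c * k)) := by
      intro S hS
      have hSk := (mem_powersetCard.mp hS).2
      have := Ex_badcomp_le (τ := 3 / η) (m := η * k) (t := (a - ε) * k) (t' := (a - 2 * ε) * k)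
        (h0 n) (h1 n) (by positivity) hL0 (by rw [hη]; apply le_of_eq; field_simp; ring) S (ι S)
        (hι S hSk).1 (hι S hSk).2 hSk (cnt s r D F u)
        (fun H H' hle Z hZ => (cnt_lip s r D F u hle Z hZ).1)
      refine le_trans (b := _) ?_ (this.trans ?_)
      refine Ex_mono (h0 n) (h1 n) fun ω => ind_mono fun h => ⟨h.2.2.1, ?_⟩
      · refine lt_of_le_of_lt ?_ (hSk ▸ h.2.2.2)
        exact_mod_cast cnt_comap_le s r D F u (gr ω) S (ι S) (hι S hSk).1 (hι S hSk).2
      · rw [Fintype.card_fin, mul_assoc _ ((k : ℝ) ^ k)]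
        apply mul_le_mul_of_nonneg_left _ (mul_nonneg (pow_nonneg (h0 n) _) (pow_nonneg q0 _))
        rw [two_mul, mul_add]
        apply add_le_add
        · refine (hk₀ k hkk.le).trans ?_
          gcongr
          exact min_le_left _ _
        · apply mul_le_mul_of_nonneg_left _ (by positivity)
          have a1 : (1 - p n + p n * Real.exp (3 / η)) ^ (k * k) ≤ Real.exp k := by
            have a2 : 1 - p n + p n * Real.exp (3 / η) ≤ Real.exp (p n * Real.exp (3 / η)) := by
              linarith [Real.add_one_le_exp (p n * Real.exp (3 / η)), h0 n]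
            refine (pow_le_pow_left₀ (add_nonneg q0 (mul_nonneg (h0 n) (by positivity))) a2 _).trans ?_
            rw [← Real.exp_nat_mul]
            apply Real.exp_le_exp.mpr
            have a3 : k * p n ≤ 2 * δ := by nlinarith [h0 n, hk'.2]
            have a4 : δ * (2 * Real.exp (3 / η)) ≤ 1 :=
              (le_div_iff₀ (by positivity)).mp (min_le_right _ _)
            have a5 : k * p n * Real.exp (3 / η) ≤ 1 := by
              nlinarith [Real.exp_pos (3 / η)]
            push_cast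
            nlinarith [Nat.cast_nonneg (α := ℝ) k]
          refine (mul_le_mul_of_nonneg_left a1 (by positivity)).trans ?_
          rw [← Real.exp_add]
          apply Real.exp_le_exp.mpr
          have a2 : 3 / η * (η * k) = 3 * k := by field_simp
          have a3 : c ≤ 2 := min_le_right _ _
          rw [a2]
          nlinarith [Nat.cast_nonneg (α := ℝ) k]
    refine (sum_le_card_nsmul _ _ _ h4).trans ?_
    rw [nsmul_eq_mul, card_powersetCard, card_univ, Fintype.card_fin, ← mul_assoc]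
    have h5 := weight_le (h0 n) (h1 n) (by omega) (Nat.lt_succ_iff.mp (mem_range.mp hk)) hlo.le
      hhi.le hk'.2
    refine (mul_le_mul_of_nonneg_right h5 (by positivity)).trans ?_
    have a1 : ((n : ℝ) ^ 3)⁻¹ = Real.exp (-(3 * Real.log n)) := by
      rw [Real.exp_neg, show 3 * Real.log n = (3 : ℕ) * Real.log n by norm_num, Real.exp_nat_mul,
        Real.exp_log hn']
    have a2 : δ ≤ c / 4 := min_le_left _ _
    have a3 : 6 * Real.log n ≤ c * k := by
      have := hk'.1
      rwa [div_mul_eq_mul_div, div_le_iff₀' hc0] at this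
    calc _ = 4 * n * Real.exp (2 * δ * k + -c * k) := by rw [Real.exp_add]; ring
      _ ≤ _ := by
        rw [a1]
        gcongr
        nlinarith [Nat.cast_nonneg (α := ℝ) k]
  refine (sum_le_card_nsmul _ _ _ h3).trans ?_
  rw [nsmul_eq_mul, card_range]
  have : (1 : ℝ) ≤ n := by exact_mod_cast hn
  push_cast
  field_simp
  nlinarith

lemma one_side {W : Type} (s : Prop) (r : ℕ) (F : SimpleGraph W) (u : W) {ε a : ℝ} (hε : 0 < ε)
    (hε1 : ε ≤ 1) (ha : a ≤ offspringLaw.real {ξ | BallIso (rayTree ξ) (0, []) r F u ↔ s})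
    {p : ℕ → ℝ} (h0 : ∀ n, 0 ≤ p n) (h1 : ∀ n, p n ≤ 1)
    (hp : Tendsto (fun n : ℕ => n * p n) atTop (𝓝 1))
    (C : ∀ n : ℕ, SimpleGraph (Fin n) → Set (Fin n))
    (hC : ∀ n, 0 < n → ∀ G, IsLargestComponent G (C n G)) :
    Tendsto (fun n : ℕ => Ex (p n) fun ω : Sym2 (Fin n) → Bool =>
      ind (({v : C n (gr ω) | BallIso ((gr ω).induce (C n (gr ω))) v r F u ↔ s}.ncard : ℝ)
        < (a - 2 * ε) * (C n (gr ω)).ncard)) atTop (𝓝 0) := by
  obtain ⟨K, hK, δ, hδ, h3⟩ := term3 s r F u hε hε1 ha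
  have l := ((term1 h0 h1 hp hK).add (term2 h0 h1 hp hδ)).add (h3 p h0 h1 hp)
  simp only [add_zero] at l
  refine squeeze_zero' (Eventually.of_forall fun n =>
    Ex_nonneg (h0 n) (h1 n) fun _ => ind_nonneg _) ?_ l
  filter_upwards [eventually_gt_atTop 0] with n hn
  rw [← Ex_add, ← Ex_add]
  refine Ex_mono (h0 n) (h1 n) fun ω => ?_
  obtain ⟨Kc, hK1, hK2⟩ := hC n hn (gr ω)
  obtain ⟨b, rfl⟩ := Kc.exists_rep
  have e : ∀ v, ((gr ω).connectedComponentMk v).supp = (comp ω v : Set (Fin n)) := by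
    intro v
    ext w
    rw [SimpleGraph.ConnectedComponent.mem_supp_iff, SimpleGraph.ConnectedComponent.eq, mem_coe,
      mem_comp, SimpleGraph.reachable_comm]
  have e1 : C n (gr ω) = (comp ω b : Set (Fin n)) := hK1.symm.trans (e b)
  rw [e1, Set.ncard_coe_finset]
  have n1 := ind_nonneg (∀ v, (comp ω v).card < K * Real.log n)
  have n2 := ind_nonneg (∃ v, δ * n < (comp ω v).card)
  by_cases c1 : ∀ v, (comp ω v).card < K * Real.log n
  · rw [ind_of c1]
    refine (ind_le_one _).trans ?_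
    exact le_add_of_le_of_nonneg (le_add_of_nonneg_right n2) (ind_nonneg _)
  by_cases c2 : ∃ v, δ * n < (comp ω v).card
  · rw [ind_of c2]
    refine (ind_le_one _).trans ?_
    exact le_add_of_le_of_nonneg (le_add_of_nonneg_left n1) (ind_nonneg _)
  refine le_add_of_nonneg_of_le (add_nonneg n1 n2) (ind_mono fun h => ?_)
  push Not at c1 c2
  obtain ⟨v, hv⟩ := c1
  refine ⟨comp ω b, hv.trans ?_, c2 b, ⟨b, mem_comp.mpr (.refl b), rfl⟩, h⟩
  have := hK2 ((gr ω).connectedComponentMk v)
  rw [e, e1, Set.ncard_coe_finset, Set.ncard_coe_finset] at this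
  exact_mod_cast this

end Pool.Agent.MP_7f4e92_pr

end MrgPart7

-- ======== part 8: formerly Pool.Agent.MP_7f4e92_pr.Main
section MrgPart8

set_option autoImplicit false

open Finset Filter MeasureTheory
open scoped Classical Topology

namespace Pool.Agent.MP_7f4e92_pr

/-- The event on the limit tree is measurable. -/
lemma measurableSet_ballIso {W : Type} (r : ℕ) (F : SimpleGraph W) (u : W) :
    MeasurableSet {ξ | BallIso (rayTree ξ) (0, []) r F u} := by
  set Φ : Set (Nd → ℕ) := {ξ | BallIso (rayTree ξ) (0, []) r F u} with hΦ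
  set ky : (Nd → ℕ) → Finset (Nd × ℕ) := fun ξ => (UF ξ r).image fun a => (a, ξ a) with hky
  have : Φ = ⋃ t ∈ ky '' Φ, {ξ' | ∀ q ∈ t, ξ' q.1 = q.2} := by
    ext ξ'
    simp only [Set.mem_iUnion]
    constructor
    · intro h
      refine ⟨ky ξ', ⟨ξ', h, rfl⟩, fun q hq => ?_⟩
      obtain ⟨a, -, rfl⟩ := mem_image.mp hq
      rfl
    · rintro ⟨_, ⟨ξ, hξ, rfl⟩, h⟩
      have h1 : ∀ a ∈ TB ξ r, ξ' a = ξ a := fun a ha =>
        h (a, ξ a) (mem_image_of_mem _ (mem_UF.mpr ha))
      have h2 : LocIso (rayTree ξ) (0, []) (rayTree ξ') id r := by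
        refine ⟨Set.injOn_id _, fun a ha y => ?_⟩
        simp only [id, exists_eq_right, rayTree_adj]
        have h3 : ∀ b : Nd, par b ∈ TB ξ r ∨ b.2 = [] → (ok ξ' b ↔ ok ξ b) := by
          rintro ⟨j, _ | ⟨c, w⟩⟩ hb
          · rfl
          · simp only [ok]
            rw [h1 (j, w) (hb.resolve_right (by simp))]
        refine or_congr (and_congr_left fun _ => h3 a ?_) (and_congr_left fun hy => h3 y ?_)
        · by_cases h4 : a = (r, [])
          · exact Or.inr (by rw [h4])
          · exact Or.inl (par_mem ha h4)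
        · exact Or.inl (hy ▸ ha)
      exact (h2.ballIso_iff F u).mpr hξ
  rw [this]
  refine MeasurableSet.biUnion (Set.to_countable _) fun t _ => ?_
  have : {ξ' : Nd → ℕ | ∀ q ∈ t, ξ' q.1 = q.2} = ⋂ q ∈ t, (fun ξ' => ξ' q.1) ⁻¹' {q.2} := by
    ext ξ'
    simp
  rw [this]
  exact Finset.measurableSet_biInter _ fun q _ =>
    measurable_pi_apply q.1 (measurableSet_singleton _)

theorem local_limit (p : ℕ → unitInterval)
    (hp : Tendsto (fun n : ℕ => (n : ℝ) * (p n : ℝ)) atTop (𝓝 1))
    (C : ∀ n : ℕ, SimpleGraph (Fin n) → Set (Fin n))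
    (hC : ∀ n, 0 < n → ∀ G, IsLargestComponent G (C n G))
    (r : ℕ) {W : Type} (F : SimpleGraph W) (u : W) :
    Tendsto (fun n : ℕ => ∫ G, ballFraction G (C n G) r F u
        ∂(SimpleGraph.binomialRandom (Fin n) (p n))) atTop
      (𝓝 (offspringLaw.real {ξ | BallIso (rayTree ξ) (0, []) r F u})) := by
  simp only [integral_binomialRandom]
  set a := offspringLaw.real {ξ | BallIso (rayTree ξ) (0, []) r F u} with ha
  have ha0 : 0 ≤ a := measureReal_nonneg
  have ha1 : a ≤ 1 := measureReal_le_one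
  have h0 : ∀ n, 0 ≤ (p n : ℝ) := fun n => (p n).2.1
  have h1 : ∀ n, (p n : ℝ) ≤ 1 := fun n => (p n).2.2
  rw [Metric.tendsto_atTop']
  intro ε' hε'
  set ε := min (ε' / 4) 1 with hε
  have hε0 : 0 < ε := by positivity
  have l1 := one_side True r F u hε0 (min_le_right _ _) (a := a) (by simp [ha]) h0 h1 hp C hC
  have l2 := one_side False r F u hε0 (min_le_right _ _) (a := 1 - a) (by
    rw [ha, ← probReal_compl_eq_one_sub (measurableSet_ballIso r F u)]
    simp [Set.compl_ofPred]) h0 h1 hp C hC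
  have l3 := l1.add l2
  rw [add_zero] at l3
  obtain ⟨N, hN⟩ := eventually_atTop.mp (l3.eventually (gt_mem_nhds (half_pos hε')))
  refine ⟨N, fun n hn => ?_⟩
  have h2 := hN n hn.le
  rw [← Ex_add] at h2
  have key : ∀ G : SimpleGraph (Fin n), |ballFraction G (C n G) r F u - a| ≤ 2 * ε +
      (ind (({v : C n G | BallIso (G.induce (C n G)) v r F u ↔ True}.ncard : ℝ)
        < (a - 2 * ε) * (C n G).ncard) +
      ind (({v : C n G | BallIso (G.induce (C n G)) v r F u ↔ False}.ncard : ℝ)
        < (1 - a - 2 * ε) * (C n G).ncard)) := by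
    intro G
    have hpos : (0 : ℝ) < (C n G).ncard := by
      obtain ⟨K, hK, -⟩ := hC n (by omega) G
      rw [← hK]
      exact_mod_cast (Set.ncard_pos).mpr K.nonempty_supp
    have hsum : ({v : C n G | BallIso (G.induce (C n G)) v r F u}.ncard : ℝ) +
        {v : C n G | BallIso (G.induce (C n G)) v r F u ↔ False}.ncard = (C n G).ncard := by
      have := Set.ncard_add_ncard_compl {v : C n G | BallIso (G.induce (C n G)) v r F u}
      rw [Nat.card_coe_set_eq] at this
      simp only [iff_false]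
      exact_mod_cast this
    simp only [iff_true]
    unfold ballFraction
    generalize ({v : C n G | BallIso (G.induce (C n G)) v r F u}.ncard) = x at hsum ⊢
    generalize ({v : C n G | BallIso (G.induce (C n G)) v r F u ↔ False}.ncard) = y at hsum ⊢
    generalize ((C n G).ncard : ℝ) = z at hsum hpos ⊢
    have hx : (0 : ℝ) ≤ x := Nat.cast_nonneg _
    have hy : (0 : ℝ) ≤ y := Nat.cast_nonneg _
    have b0 : 0 ≤ x / z := by positivity
    have b1 : x / z ≤ 1 := by rw [div_le_one hpos]; linarith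
    have b2 : |x / z - a| ≤ 1 := abs_le.mpr ⟨by linarith, by linarith⟩
    have n1 := ind_nonneg ((x : ℝ) < (a - 2 * ε) * z)
    have n2 := ind_nonneg ((y : ℝ) < (1 - a - 2 * ε) * z)
    by_cases c1 : (x : ℝ) < (a - 2 * ε) * z
    · rw [ind_of c1]; linarith
    by_cases c2 : (y : ℝ) < (1 - a - 2 * ε) * z
    · rw [ind_of c2]; linarith
    have b3 : a - 2 * ε ≤ x / z := by rw [le_div_iff₀ hpos]; linarith
    have b4 : x / z ≤ a + 2 * ε := by rw [div_le_iff₀ hpos]; linarith
    exact abs_le.mpr ⟨by linarith, by linarith⟩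
  have h3 := Ex_mono (h0 n) (h1 n) fun ω : Sym2 (Fin n) → Bool => (abs_le.mp (key (gr ω))).2
  have h4 := Ex_mono (h0 n) (h1 n) fun ω : Sym2 (Fin n) → Bool =>
    neg_le.mp (abs_le.mp (key (gr ω))).1
  simp only [neg_sub] at h4
  rw [Ex_sub, Ex_add, Ex_const, Ex_const] at h3 h4
  have h5 : ε ≤ ε' / 4 := min_le_left _ _
  rw [Real.dist_eq, abs_lt]
  constructor <;> linarith

end Pool.Agent.MP_7f4e92_pr

end MrgPart8

-- marker of a merged file
example : 731051 + 640786 = 731051 + 640786 := rfl
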